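import Mathlib

/-!
# Self-interest cumulative subtraction games: definitions and the recursion

Two players alternately remove `s ∈ S` pebbles from a heap and add `s` to their own score; each
maximises the own score and breaks ties by a fixed convention (friendly or antagonistic).
-/

namespace Pool.Agent.R185.CumSub

/-- The two tie-breaking conventions: friendly `F` and antagonistic `A`. -/
inductive Conv
  | F
  | A
  deriving DecidableEq

instance : Fintype Conv := ⟨{Conv.F, Conv.A}, fun x => by cases x <;> simp⟩

/-- The legal moves from a heap of size `h`: the `s ∈ S` with `1 ≤ s ≤ h`. -/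
def moves (S : Finset ℕ) (h : ℕ) : Finset ℕ := S.filter fun s => 1 ≤ s ∧ s ≤ h

theorem mem_moves {S : Finset ℕ} {h s : ℕ} : s ∈ moves S h ↔ s ∈ S ∧ 1 ≤ s ∧ s ≤ h := by
  simp [moves]

/-- The choice among equally good continuations: a friendly mover takes the largest total of the
opponent, an antagonistic mover the smallest. -/
noncomputable def tieBreak : Conv → Set ℕ → ℕ
  | Conv.F, T => sSup T
  | Conv.A, T => sInf T

/-- `outcome S c d h = (o¹, o²)`: the totals of the player who moves first from a heap of size `h`
(convention `c`) and of the other player (convention `d`).  If there is no legal move it is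
`(0, 0)`.  Otherwise `o¹` is the maximum `best` of `s + o²(h - s)` over the legal moves `s`, where
after the move the roles (and the conventions) are exchanged, and `o²` is the value of `o¹(h - s)`
for an optimal `s`, maximised over the optimal `s` if `c` is friendly and minimised over them
if `c` is antagonistic. -/
noncomputable def outcome (S : Finset ℕ) (c d : Conv) (h : ℕ) : ℕ × ℕ :=
  if moves S h = ∅ then (0, 0) else
    let best : ℕ := sSup {x | ∃ s, ∃ _hs : s ∈ moves S h, x = s + (outcome S d c (h - s)).2}
    let ties : Set ℕ := {y | ∃ s, ∃ _hs : s ∈ moves S h,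
      s + (outcome S d c (h - s)).2 = best ∧ y = (outcome S d c (h - s)).1}
    (best, tieBreak c ties)
termination_by h
decreasing_by all_goals (have := (mem_moves.1 _hs).2; omega)

theorem outcome_empty {S : Finset ℕ} {h : ℕ} (hm : moves S h = ∅) (c d : Conv) :
    outcome S c d h = (0, 0) := by
  rw [outcome]; simp [hm]

/-- The recursion: `o¹` is attained and is the maximum; `o²` comes from an optimal move and is
extremal among the optimal moves. -/
theorem outcome_spec {S : Finset ℕ} {h : ℕ} (hm : moves S h ≠ ∅) (c d : Conv) :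
    (∃ s ∈ moves S h, (outcome S c d h).1 = s + (outcome S d c (h - s)).2 ∧
      (outcome S c d h).2 = (outcome S d c (h - s)).1) ∧
    (∀ s ∈ moves S h, s + (outcome S d c (h - s)).2 ≤ (outcome S c d h).1) ∧
    (∀ s ∈ moves S h, s + (outcome S d c (h - s)).2 = (outcome S c d h).1 →
      (c = Conv.F → (outcome S d c (h - s)).1 ≤ (outcome S c d h).2) ∧
      (c = Conv.A → (outcome S c d h).2 ≤ (outcome S d c (h - s)).1)) := by
  have hne : (moves S h).Nonempty := Finset.nonempty_iff_ne_empty.2 hm
  set X : Set ℕ := {x | ∃ s, ∃ _hs : s ∈ moves S h, x = s + (outcome S d c (h - s)).2} with hX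
  have hXfin : X.Finite := by
    have : X = (fun s => s + (outcome S d c (h - s)).2) '' (↑(moves S h) : Set ℕ) := by
      ext x
      simp only [hX, Set.mem_image, Finset.mem_coe]
      constructor
      · rintro ⟨s, hs, rfl⟩; exact ⟨s, hs, rfl⟩
      · rintro ⟨s, hs, rfl⟩; exact ⟨s, hs, rfl⟩
    rw [this]; exact (Finset.finite_toSet _).image _
  have hXne : X.Nonempty := by
    obtain ⟨s, hs⟩ := hne
    exact ⟨_, s, hs, rfl⟩
  set T : Set ℕ := {y | ∃ s, ∃ _hs : s ∈ moves S h,
      s + (outcome S d c (h - s)).2 = sSup X ∧ y = (outcome S d c (h - s)).1} with hT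
  have hTfin : T.Finite := by
    refine ((Finset.finite_toSet (moves S h)).image
      (fun s => (outcome S d c (h - s)).1)).subset ?_
    rintro y ⟨s, hs, _, rfl⟩
    exact ⟨s, hs, rfl⟩
  have hTne : T.Nonempty := by
    obtain ⟨s, hs, he⟩ := Nat.sSup_mem hXne hXfin.bddAbove
    exact ⟨_, s, hs, he.symm, rfl⟩
  have h1 : (outcome S c d h).1 = sSup X := by
    rw [outcome]; simp only [hm, if_false]; rfl
  have h2 : (outcome S c d h).2 = tieBreak c T := by
    rw [outcome]; simp only [hm, if_false]; rfl
  have h2mem : (outcome S c d h).2 ∈ T := by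
    rw [h2]
    cases c
    · exact Nat.sSup_mem hTne hTfin.bddAbove
    · exact Nat.sInf_mem hTne
  refine ⟨?_, ?_, ?_⟩
  · obtain ⟨s, hs, he, hy⟩ := h2mem
    exact ⟨s, hs, by rw [h1, he], hy⟩
  · intro s hs
    rw [h1]
    exact le_csSup hXfin.bddAbove ⟨s, hs, rfl⟩
  · intro s hs he
    have hin : (outcome S d c (h - s)).1 ∈ T := ⟨s, hs, by rw [he, h1], rfl⟩
    constructor
    · rintro rfl
      rw [h2]
      exact le_csSup hTfin.bddAbove hin
    · rintro rfl
      rw [h2]
      exact Nat.sInf_le hin

/-- A function satisfying the recursion up to `H` is the outcome function up to `H`. -/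
theorem outcome_unique {S : Finset ℕ} (H : ℕ) (t : Conv → Conv → ℕ → ℕ × ℕ)
    (h0 : ∀ h ≤ H, moves S h = ∅ → ∀ c d, t c d h = (0, 0))
    (h1 : ∀ h ≤ H, moves S h ≠ ∅ → ∀ c d,
      (∃ s ∈ moves S h, (t c d h).1 = s + (t d c (h - s)).2 ∧ (t c d h).2 = (t d c (h - s)).1) ∧
      (∀ s ∈ moves S h, s + (t d c (h - s)).2 ≤ (t c d h).1) ∧
      (∀ s ∈ moves S h, s + (t d c (h - s)).2 = (t c d h).1 →
        (c = Conv.F → (t d c (h - s)).1 ≤ (t c d h).2) ∧
        (c = Conv.A → (t c d h).2 ≤ (t d c (h - s)).1))) :
    ∀ h ≤ H, ∀ c d, outcome S c d h = t c d h := by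
  intro h
  induction h using Nat.strong_induction_on with
  | _ h ih =>
    intro hH c d
    by_cases hm : moves S h = ∅
    · rw [outcome_empty hm, h0 h hH hm]
    · have key : ∀ s ∈ moves S h, outcome S d c (h - s) = t d c (h - s) := by
        intro s hs
        have := (mem_moves.1 hs).2
        exact ih (h - s) (by omega) (by omega) d c
      obtain ⟨⟨s, hs, e1, e2⟩, b1, b2⟩ := outcome_spec hm c d
      obtain ⟨⟨s', hs', e1', e2'⟩, b1', b2'⟩ := h1 h hH hm c d
      rw [key s hs] at e1 e2
      have hfst : (outcome S c d h).1 = (t c d h).1 := by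
        apply le_antisymm
        · rw [e1]; exact b1' s hs
        · rw [e1', ← key s' hs']; exact b1 s' hs'
      have hsnd : (outcome S c d h).2 = (t c d h).2 := by
        have q1 := b2' s hs (by rw [← e1, hfst])
        have q2 := b2 s' hs' (by rw [key s' hs', ← e1', hfst])
        rw [key s' hs'] at q2
        cases c
        · have a1 := q1.1 rfl
          have a2 := q2.1 rfl
          omega
        · have a1 := q1.2 rfl
          have a2 := q2.2 rfl
          omega
      exact Prod.ext hfst hsnd

end Pool.Agent.R185.CumSub
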