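import Mathlib

/-!
# The fractional transversal game on a finite hypergraph

Definitions of the fractional transversal game (hypergraph, cover functions, moves as finite or
infinite sequences of submoves, plays, strategies, value, greedy moves), and general lemmas.
-/

open Finset

set_option linter.unusedSectionVars false

namespace Pool.Agent.R185.FracTrans

/-- The two players: Edge-hitter (minimiser) and Staller (maximiser). -/
inductive Player
  | hitter
  | staller
  deriving DecidableEq

/-- The other player. -/
def Player.other : Player → Player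
  | .hitter => .staller
  | .staller => .hitter

/-- A hypergraph on the vertex set `V`: a finite set of nonempty finite edges. -/
structure FinHypergraph (V : Type) where
  /-- the edges -/
  edges : Finset (Finset V)
  /-- no edge is empty -/
  edges_nonempty : ∀ E ∈ edges, E.Nonempty

/-- The load of the edge `E` under the cover function `t`: `min {1, ∑_{v ∈ E} t v}`. -/
noncomputable def load {V : Type} (t : V → ℝ) (E : Finset V) : ℝ := min 1 (∑ v ∈ E, t v)

/-- The hypergraph is fully covered by `t` if all loads are `1`. -/
def FullyCovered {V : Type} (H : FinHypergraph V) (t : V → ℝ) : Prop :=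
  ∀ E ∈ H.edges, load t E = 1

/-- A move: a finite (`len < ⊤`) or infinite (`len = ⊤`) sequence of submoves
`(vert k, wt k)`, `k < len`. For `k ≥ len` we put `wt k = 0` by convention. -/
structure Move (V : Type) where
  /-- number of submoves -/
  len : ℕ∞
  /-- the vertex of the `k`-th submove -/
  vert : ℕ → V
  /-- the weight of the `k`-th submove -/
  wt : ℕ → ℝ
  /-- convention for positions past the end -/
  wt_eq_zero : ∀ k : ℕ, len ≤ k → wt k = 0

/-- The sum of the weights of a move. -/
noncomputable def Move.weight {V : Type} (m : Move V) : ℝ := ∑' k, m.wt k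

/-- The total weight which the move adds to the vertex `v`. -/
noncomputable def Move.added {V : Type} [DecidableEq V] (m : Move V) (v : V) : ℝ :=
  ∑' k, if m.vert k = v then m.wt k else 0

/-- The weight placed on vertices of `E` by the submoves before the `k`-th one. -/
noncomputable def Move.placed {V : Type} [DecidableEq V] (m : Move V) (E : Finset V) (k : ℕ) : ℝ :=
  ∑ s ∈ range k, if m.vert s ∈ E then m.wt s else 0

/-- The cover function after the move. -/
noncomputable def after {V : Type} [DecidableEq V] (t : V → ℝ) (m : Move V) : V → ℝ :=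
  fun v => t v + m.added v

/-- Legality of a move: the weights of the submoves lie in `[0, 1]`, every submove is legal, and
the weights sum to exactly `1`, except that the sum may be `≤ 1` if the move ends the game. -/
structure Legal {V : Type} [DecidableEq V] (H : FinHypergraph V) (t : V → ℝ) (m : Move V) :
    Prop where
  bounds : ∀ k : ℕ, (k : ℕ∞) < m.len → 0 ≤ m.wt k ∧ m.wt k ≤ 1
  submove : ∀ k : ℕ, (k : ℕ∞) < m.len →
    ∃ E ∈ H.edges, m.vert k ∈ E ∧ load t E + m.placed E k + m.wt k ≤ 1
  summable : Summable m.wt
  total : m.weight = 1 ∨ (m.weight ≤ 1 ∧ FullyCovered H (after t m))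

/-- `L` is a (not necessarily complete) play starting from the cover function `t`. The game stops
when the hypergraph is fully covered. -/
def IsPlay {V : Type} [DecidableEq V] (H : FinHypergraph V) : (V → ℝ) → List (Move V) → Prop
  | _, [] => True
  | t, m :: L => ¬ FullyCovered H t ∧ Legal H t m ∧ IsPlay H (after t m) L

/-- The cover function after the moves of `L`. -/
noncomputable def final {V : Type} [DecidableEq V] : (V → ℝ) → List (Move V) → (V → ℝ)
  | t, [] => t
  | t, m :: L => final (after t m) L

/-- A complete play: the play ends in a cover function which fully covers `H`. -/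
def IsCompletePlay {V : Type} [DecidableEq V] (H : FinHypergraph V) (t : V → ℝ)
    (L : List (Move V)) : Prop :=
  IsPlay H t L ∧ FullyCovered H (final t L)

/-- The value of a play: the total weight added. -/
noncomputable def totalWeight {V : Type} (L : List (Move V)) : ℝ := (L.map Move.weight).sum

/-- The player who makes the move number `n` (counted from `0`) if `first` makes move `0`. -/
def mover (first : Player) : ℕ → Player
  | 0 => first
  | n + 1 => mover first.other n

/-- A strategy prescribes a move after every history (list of the moves made so far). -/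
abbrev Strategy (V : Type) := List (Move V) → Move V

/-- In the play `L`, all moves of the player `who` are those prescribed by `σ`. -/
def Follows {V : Type} (who first : Player) (σ : Strategy V) (L : List (Move V)) : Prop :=
  ∀ L₁ m L₂, L = L₁ ++ m :: L₂ → mover first L₁.length = who → m = σ L₁

/-- `σ` is a (legal) strategy of the player `who` in the game which starts from `t` with a move of
`first`: in every play in which `who` has followed `σ`, the prescribed move is legal whenever `who`
has to move. -/
def IsStrategy {V : Type} [DecidableEq V] (H : FinHypergraph V) (t : V → ℝ) (who first : Player)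
    (σ : Strategy V) : Prop :=
  ∀ L, IsPlay H t L → Follows who first σ L → ¬ FullyCovered H (final t L) →
    mover first L.length = who → Legal H (final t L) (σ L)

/-- The strategy `σ` of the player `who` ensures that the value of every complete play
has the property `P`. -/
def Ensures {V : Type} [DecidableEq V] (H : FinHypergraph V) (t : V → ℝ) (who first : Player)
    (σ : Strategy V) (P : ℝ → Prop) : Prop :=
  IsStrategy H t who first σ ∧
    ∀ L, IsCompletePlay H t L → Follows who first σ L → P (totalWeight L)

/-- The value which Staller can secure (lower value): the supremum of all `x` such that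
Staller has a strategy which guarantees that the value of the play is at least `x`. -/
noncomputable def lowerValue {V : Type} [DecidableEq V] (H : FinHypergraph V) (t : V → ℝ)
    (first : Player) : EReal :=
  ⨆ x ∈ {x : ℝ | ∃ σ, Ensures H t .staller first σ (fun y => x ≤ y)}, (x : EReal)

/-- The value which Edge-hitter can secure (upper value): the infimum of all `x` such that
Edge-hitter has a strategy which guarantees that the value of the play is at most `x`. -/
noncomputable def upperValue {V : Type} [DecidableEq V] (H : FinHypergraph V) (t : V → ℝ)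
    (first : Player) : EReal :=
  ⨅ x ∈ {x : ℝ | ∃ σ, Ensures H t .hitter first σ (fun y => y ≤ x)}, (x : EReal)

/-! ### General lemmas -/

section lemmas

variable {V : Type} [DecidableEq V] {H : FinHypergraph V} {t : V → ℝ} {m : Move V}

lemma load_le_one (t : V → ℝ) (E : Finset V) : load t E ≤ 1 := min_le_left _ _

lemma load_le_sum (t : V → ℝ) (E : Finset V) : load t E ≤ ∑ v ∈ E, t v := min_le_right _ _

lemma one_le_sum_of_load {t : V → ℝ} {E : Finset V} (h : load t E = 1) : 1 ≤ ∑ v ∈ E, t v := by
  rw [← h]; exact load_le_sum t E

lemma load_eq_one {t : V → ℝ} {E : Finset V} (h : 1 ≤ ∑ v ∈ E, t v) : load t E = 1 :=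
  min_eq_left h

lemma load_eq_sum {t : V → ℝ} {E : Finset V} (h : load t E < 1) : load t E = ∑ v ∈ E, t v := by
  unfold load at *
  rcases min_lt_iff.1 h with h1 | h1
  · exact absurd h1 (lt_irrefl _)
  · exact min_eq_right h1.le

lemma Legal.wt_nonneg (h : Legal H t m) (k : ℕ) : 0 ≤ m.wt k := by
  by_cases hk : (k : ℕ∞) < m.len
  · exact (h.bounds k hk).1
  · rw [m.wt_eq_zero k (not_lt.1 hk)]

lemma Legal.wt_ite_summable (h : Legal H t m) (v : V) :
    Summable (fun k => if m.vert k = v then m.wt k else 0) := by
  refine Summable.of_nonneg_of_le (fun k => ?_) (fun k => ?_) h.summable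
  · split_ifs
    · exact h.wt_nonneg k
    · exact le_rfl
  · split_ifs
    · exact le_rfl
    · exact h.wt_nonneg k

lemma Legal.added_nonneg (h : Legal H t m) (v : V) : 0 ≤ m.added v := by
  unfold Move.added
  refine tsum_nonneg fun k => ?_
  split_ifs
  · exact h.wt_nonneg k
  · exact le_rfl

lemma Legal.sum_added [Fintype V] (h : Legal H t m) : ∑ v, m.added v = m.weight := by
  unfold Move.added Move.weight
  rw [← Summable.tsum_finsetSum (fun v _ => h.wt_ite_summable v)]
  congr 1
  funext k
  simp

lemma Legal.placed_nonneg (h : Legal H t m) (E : Finset V) (k : ℕ) : 0 ≤ m.placed E k := by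
  unfold Move.placed
  refine Finset.sum_nonneg fun s _ => ?_
  split_ifs
  · exact h.wt_nonneg s
  · exact le_rfl

lemma Legal.weight_le_one (h : Legal H t m) : m.weight ≤ 1 := by
  rcases h.total with h1 | h1
  · exact h1.le
  · exact h1.1

lemma Legal.added_eq_zero (h : Legal H t m) {v : V}
    (hv : ∀ E ∈ H.edges, v ∈ E → load t E = 1) : m.added v = 0 := by
  unfold Move.added
  have : (fun k => if m.vert k = v then m.wt k else 0) = fun _ => 0 := by
    funext k
    split_ifs with hk
    · by_cases hl : (k : ℕ∞) < m.len
      · obtain ⟨E, hE, hvE, hle⟩ := h.submove k hl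
        rw [hk] at hvE
        rw [hv E hE hvE] at hle
        have := h.placed_nonneg E k
        have := h.wt_nonneg k
        linarith
      · exact m.wt_eq_zero k (not_lt.1 hl)
    · rfl
  rw [this]
  exact tsum_zero

lemma IsPlay.le_final {L : List (Move V)} (h : IsPlay H t L) (v : V) : t v ≤ final t L v := by
  induction L generalizing t with
  | nil => exact le_rfl
  | cons m L ih =>
    obtain ⟨-, h2, h3⟩ := h
    have := ih h3
    have h4 := h2.added_nonneg v
    unfold final
    refine le_trans ?_ this
    unfold after
    linarith

lemma IsPlay.sum_final [Fintype V] {L : List (Move V)} (h : IsPlay H t L) :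
    ∑ v, final t L v = ∑ v, t v + totalWeight L := by
  induction L generalizing t with
  | nil => simp [final, totalWeight]
  | cons m L ih =>
    obtain ⟨-, h2, h3⟩ := h
    have := ih h3
    unfold final
    rw [this]
    have h5 : ∑ v, after t m v = ∑ v, t v + m.weight := by
      unfold after
      rw [Finset.sum_add_distrib, h2.sum_added]
    rw [h5]
    simp only [totalWeight, List.map_cons, List.sum_cons]
    ring

/-! ### Composition of strategies -/

/-- the player `who` can ensure the property `P` of the value -/
def Can (H : FinHypergraph V) (t : V → ℝ) (who first : Player) (P : ℝ → Prop) : Prop :=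
  ∃ σ, Ensures H t who first σ P

lemma follows_cons {who first : Player} {σ : Strategy V} {m : Move V} {L : List (Move V)}
    (h : Follows who first σ (m :: L)) :
    (first = who → m = σ []) ∧ Follows who first.other (fun L' => σ (m :: L')) L := by
  refine ⟨fun hf => h [] m L rfl hf, ?_⟩
  intro L₁ m' L₂ hL hm
  refine h (m :: L₁) m' L₂ (by rw [hL]; rfl) ?_
  simpa [mover] using hm

lemma can_own {who : Player} {P : ℝ → Prop} {m : Move V} (hc : ¬ FullyCovered H t)
    (hm : Legal H t m) (h : Can H (after t m) who who.other (fun y => P (m.weight + y))) :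
    Can H t who who P := by
  obtain ⟨σ, h1, h2⟩ := h
  let σ' : Strategy V := fun L => match L with
    | [] => m
    | _ :: L' => σ L'
  refine ⟨σ', ?_, ?_⟩
  · intro L hL hF hcov hmov
    cases L with
    | nil => exact hm
    | cons m' L =>
      have h3 := follows_cons hF
      have h4 : m' = m := h3.1 rfl
      subst h4
      refine h1 L hL.2.2 h3.2 hcov ?_
      simpa [mover] using hmov
  · intro L hL hF
    cases L with
    | nil => exact absurd hL.2 hc
    | cons m' L =>
      have h3 := follows_cons hF
      have h4 : m' = m := h3.1 rfl
      subst h4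
      have := h2 L ⟨hL.1.2.2, hL.2⟩ h3.2
      simpa [totalWeight] using this

lemma can_opp {who first : Player} {P : ℝ → Prop} (hne : first ≠ who) (hc : ¬ FullyCovered H t)
    (h : ∀ m, Legal H t m →
      Can H (after t m) who first.other (fun y => P (m.weight + y))) :
    Can H t who first P := by
  classical
  -- a default move (never used) is obtained from any history
  choose! σ hσ using h
  by_cases hex : ∃ m, Legal H t m
  · obtain ⟨m₀, -⟩ := hex
    let σ' : Strategy V := fun L => match L with
      | [] => m₀
      | m :: L' => σ m L'
    refine ⟨σ', ?_, ?_⟩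
    · intro L hL hF hcov hmov
      cases L with
      | nil => exact absurd hmov hne
      | cons m' L =>
        have h3 := follows_cons hF
        refine (hσ m' hL.2.1).1 L hL.2.2 h3.2 hcov ?_
        simpa [mover] using hmov
    · intro L hL hF
      cases L with
      | nil => exact absurd hL.2 hc
      | cons m' L =>
        have h3 := follows_cons hF
        have := (hσ m' hL.1.2.1).2 L ⟨hL.1.2.2, hL.2⟩ h3.2
        simpa [totalWeight] using this
  · -- no legal move at all
    have hV : Nonempty (Move V) := by
      by_contra hV
      apply hc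
      intro E hE
      obtain ⟨v, hv⟩ := H.edges_nonempty E hE
      exact absurd ⟨⟨0, fun _ => v, fun _ => 0, fun _ _ => rfl⟩⟩ hV
    obtain ⟨m₀⟩ := hV
    refine ⟨fun _ => m₀, ?_, ?_⟩
    · intro L hL hF hcov hmov
      cases L with
      | nil => exact absurd hmov hne
      | cons m' L => exact absurd ⟨m', hL.2.1⟩ hex
    · intro L hL hF
      cases L with
      | nil => exact absurd hL.2 hc
      | cons m' L => exact absurd ⟨m', hL.1.2.1⟩ hex

lemma can_covered {who first : Player} {P : ℝ → Prop} (hc : FullyCovered H t) (m₀ : Move V)
    (hP : P 0) : Can H t who first P := by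
  refine ⟨fun _ => m₀, ?_, ?_⟩
  · intro L hL hF hcov hmov
    cases L with
    | nil => exact absurd hc hcov
    | cons m' L => exact absurd hc hL.1
  · intro L hL hF
    cases L with
    | nil => simpa [totalWeight] using hP
    | cons m' L => exact absurd hc hL.1.1

/-! ### Construction of legal moves -/

/-- `Reach H t r t'`: from `t` one can reach `t'` by finitely many submoves of positive weight
and of total weight `r`. -/
inductive Reach (H : FinHypergraph V) (t : V → ℝ) : ℝ → (V → ℝ) → Prop
  | refl : Reach H t 0 t
  | step {r : ℝ} {t' : V → ℝ} (h : Reach H t r t') (v : V) (w : ℝ) (hw : 0 < w)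
      (E : Finset V) (hE : E ∈ H.edges) (hv : v ∈ E) (hl : load t' E + w ≤ 1) :
      Reach H t (r + w) (fun u => t' u + if u = v then w else 0)

lemma Reach.trans {t t' t'' : V → ℝ} {r s : ℝ} (h : Reach H t r t') (h' : Reach H t' s t'') :
    Reach H t (r + s) t'' := by
  induction h' with
  | refl => simpa using h
  | step h2 v w hw E hE hv hl ih =>
    rw [← add_assoc]
    exact ih.step v w hw E hE hv hl

lemma Reach.le {t t' : V → ℝ} {r : ℝ} (h : Reach H t r t') (v : V) : t v ≤ t' v := by
  induction h with
  | refl => exact le_rfl
  | step h2 u w hw E hE hv hl ih =>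
    refine le_trans ih ?_
    show _ ≤ _ + _
    split_ifs
    · linarith
    · linarith

lemma Reach.nonneg {t t' : V → ℝ} {r : ℝ} (h : Reach H t r t') : 0 ≤ r := by
  induction h with
  | refl => exact le_rfl
  | step h2 u w hw E hE hv hl ih => linarith

/-- one submove of possibly zero weight -/
lemma reach_single (v : V) (w : ℝ) (hw : 0 ≤ w)
    (E : Finset V) (hE : E ∈ H.edges) (hv : v ∈ E) (hl : 0 < w → load t E + w ≤ 1) :
    Reach H t w (fun u => t u + if u = v then w else 0) := by
  rcases hw.eq_or_lt with h0 | h0
  · subst h0
    simpa using Reach.refl (H := H) (t := t)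
  · have := (Reach.refl (H := H) (t := t)).step v w h0 E hE hv (hl h0)
    simpa using this

lemma sum_ite_mem_eq {t' : V → ℝ} {vert : ℕ → V} {wt : ℕ → ℝ} {n : ℕ}
    (ht : ∀ v, t' v = t v + ∑ k ∈ range n, if vert k = v then wt k else 0) (E : Finset V) :
    ∑ v ∈ E, t' v = ∑ v ∈ E, t v + ∑ s ∈ range n, if vert s ∈ E then wt s else 0 := by
  simp only [ht]
  rw [Finset.sum_add_distrib, Finset.sum_comm]
  congr 1
  refine Finset.sum_congr rfl fun s _ => ?_
  simp

lemma Reach.exists_seq {t t' : V → ℝ} {r : ℝ} (h : Reach H t r t') (v₀ : V) :
    ∃ (n : ℕ) (vert : ℕ → V) (wt : ℕ → ℝ), (∀ k, n ≤ k → wt k = 0) ∧ (∀ k, k < n → 0 < wt k) ∧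
      (∀ k, k < n → ∃ E ∈ H.edges, vert k ∈ E ∧
        load t E + (∑ s ∈ range k, if vert s ∈ E then wt s else 0) + wt k ≤ 1) ∧
      (∑ k ∈ range n, wt k = r) ∧
      ∀ v, t' v = t v + ∑ k ∈ range n, if vert k = v then wt k else 0 := by
  induction h with
  | refl => exact ⟨0, fun _ => v₀, fun _ => 0, by simp, by simp, by simp, by simp, by simp⟩
  | @step r t' h2 v w hw E hE hv hl ih =>
    obtain ⟨n, vert, wt, h1, h3, h4, h5, h6⟩ := ih
    have hk : ∀ k, k < n → Function.update vert n v k = vert k ∧ Function.update wt n w k = wt k := by
      intro k hk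
      exact ⟨Function.update_of_ne hk.ne _ _, Function.update_of_ne hk.ne _ _⟩
    have hsum : ∀ (E : Finset V) (k : ℕ), k ≤ n →
        (∑ s ∈ range k, if Function.update vert n v s ∈ E then Function.update wt n w s else 0)
          = ∑ s ∈ range k, if vert s ∈ E then wt s else 0 := by
      intro E k hkn
      refine Finset.sum_congr rfl fun s hs => ?_
      have := hk s (lt_of_lt_of_le (Finset.mem_range.1 hs) hkn)
      rw [this.1, this.2]
    refine ⟨n + 1, Function.update vert n v, Function.update wt n w, ?_, ?_, ?_, ?_, ?_⟩
    · intro k hk'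
      rw [Function.update_of_ne (by omega)]
      exact h1 k (by omega)
    · intro k hk'
      rcases Nat.lt_succ_iff_lt_or_eq.1 hk' with h | h
      · rw [(hk k h).2]; exact h3 k h
      · subst h; simpa using hw
    · intro k hk'
      rcases Nat.lt_succ_iff_lt_or_eq.1 hk' with h | h
      · obtain ⟨E', hE', hv', hl'⟩ := h4 k h
        refine ⟨E', hE', ?_, ?_⟩
        · rw [(hk k h).1]; exact hv'
        · rw [hsum E' k h.le, (hk k h).2]; exact hl'
      · subst h
        refine ⟨E, hE, by simpa using hv, ?_⟩
        rw [hsum E k le_rfl]
        simp only [Function.update_self]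
        have hlt : load t' E < 1 := by linarith
        have e1 := load_eq_sum hlt
        have e2 := sum_ite_mem_eq h6 E
        have e3 := load_le_sum t E
        linarith
    · rw [Finset.sum_range_succ]
      simp only [Function.update_self]
      rw [← h5]
      congr 1
      exact Finset.sum_congr rfl fun s hs => (hk s (Finset.mem_range.1 hs)).2
    · intro u
      rw [Finset.sum_range_succ]
      simp only [Function.update_self]
      have : (∑ s ∈ range n, if Function.update vert n v s = u then Function.update wt n w s else 0)
          = ∑ s ∈ range n, if vert s = u then wt s else 0 := by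
        refine Finset.sum_congr rfl fun s hs => ?_
        have := hk s (Finset.mem_range.1 hs)
        rw [this.1, this.2]
      rw [this, h6 u]
      simp only [eq_comm (a := u)]
      ring

/-- A sequence of submoves of total weight `1`, or which covers everything, is a legal move. -/
lemma Reach.exists_move {t t' : V → ℝ} {r : ℝ} (h : Reach H t r t') (v₀ : V)
    (hr : r = 1 ∨ (r ≤ 1 ∧ FullyCovered H t')) :
    ∃ m, Legal H t m ∧ after t m = t' ∧ m.weight = r := by
  obtain ⟨n, vert, wt, h1, h3, h4, h5, h6⟩ := h.exists_seq v₀
  have hr1 : r ≤ 1 := by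
    rcases hr with h | h
    · exact h.le
    · exact h.1
  let m : Move V := ⟨n, vert, wt, fun k hk => h1 k (by exact_mod_cast hk)⟩
  have hwt : m.weight = r := by
    unfold Move.weight
    rw [← h5]
    exact tsum_eq_sum fun k hk => h1 k (by simpa using hk)
  have haft : after t m = t' := by
    funext v
    unfold after Move.added
    rw [h6 v]
    congr 1
    refine tsum_eq_sum fun k hk => ?_
    have : m.wt k = 0 := h1 k (by simpa using hk)
    rw [this]; simp
  refine ⟨m, ⟨?_, ?_, ?_, ?_⟩, haft, hwt⟩
  · intro k hk
    have hk' : k < n := Nat.cast_lt.1 (show (k : ℕ∞) < (n : ℕ∞) from hk)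
    refine ⟨(h3 k hk').le, ?_⟩
    refine le_trans ?_ hr1
    rw [← h5]
    exact Finset.single_le_sum (f := wt) (fun i hi => (h3 i (Finset.mem_range.1 hi)).le)
      (Finset.mem_range.2 hk')
  · intro k hk
    have hk' : k < n := Nat.cast_lt.1 (show (k : ℕ∞) < (n : ℕ∞) from hk)
    exact h4 k hk'
  · exact summable_of_ne_finset_zero (s := range n) fun k hk => h1 k (by simpa using hk)
  · rw [hwt, haft]; exact hr

/-- From every cover function one can continue until the budget is used up or everything is
covered. -/
lemma exists_fill (H : FinHypergraph V) (r : ℝ) (hr : 0 ≤ r) (t : V → ℝ) :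
    ∃ t' s, Reach H t s t' ∧ s ≤ r ∧ (s = r ∨ FullyCovered H t') := by
  classical
  -- induction on the number of uncovered edges
  induction hn : (H.edges.filter fun E => load t E < 1).card using Nat.strong_induction_on
    generalizing t r with
  | _ n ih =>
    by_cases hcov : FullyCovered H t
    · exact ⟨t, 0, Reach.refl, hr, Or.inr hcov⟩
    unfold FullyCovered at hcov
    push Not at hcov
    obtain ⟨E, hE, hne⟩ := hcov
    have hlt : load t E < 1 := lt_of_le_of_ne (load_le_one t E) hne
    obtain ⟨v, hv⟩ := H.edges_nonempty E hE
    by_cases hc : r ≤ 1 - load t E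
    · refine ⟨_, r, reach_single v r hr E hE hv (fun _ => by linarith), le_rfl, Or.inl rfl⟩
    · push Not at hc
      set w := 1 - load t E with hw
      have hw0 : 0 < w := by linarith
      have hR := reach_single (H := H) (t := t) v w hw0.le E hE hv (fun _ => by linarith)
      set t₁ : V → ℝ := fun u => t u + if u = v then w else 0 with ht₁
      have hmono : ∀ F : Finset V, ∑ u ∈ F, t u ≤ ∑ u ∈ F, t₁ u := by
        intro F
        refine Finset.sum_le_sum fun u _ => ?_
        simp only [ht₁]
        split_ifs <;> linarith
      have hE1 : ¬ load t₁ E < 1 := by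
        have e1 : ∑ u ∈ E, t₁ u = ∑ u ∈ E, t u + w := by
          simp only [ht₁]
          rw [Finset.sum_add_distrib]
          congr 1
          rw [Finset.sum_ite_eq']
          simp [hv]
        have e2 := load_eq_sum hlt
        have : load t₁ E = 1 := load_eq_one (by rw [e1]; linarith)
        rw [this]; exact lt_irrefl _
      have hsub : (H.edges.filter fun E => load t₁ E < 1) ⊂ (H.edges.filter fun E => load t E < 1) := by
        refine Finset.ssubset_iff_of_subset ?_ |>.2 ⟨E, by simp [hE, hlt], by simp [hE1]⟩
        intro F hF
        rw [Finset.mem_filter] at hF ⊢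
        refine ⟨hF.1, lt_of_le_of_lt ?_ hF.2⟩
        unfold load
        exact min_le_min le_rfl (hmono F)
      obtain ⟨t', s, h1, h2, h3⟩ := ih _ (by rw [← hn]; exact Finset.card_lt_card hsub)
        (r - w) (by linarith) t₁ rfl
      refine ⟨t', w + s, hR.trans h1, by linarith, ?_⟩
      rcases h3 with h3 | h3
      · left; linarith
      · right; exact h3

/-- A sequence of submoves of total weight at most `1` can be extended to a legal move. -/
lemma Reach.extend {t t' : V → ℝ} {r : ℝ} (h : Reach H t r t') (v₀ : V) (hr : r ≤ 1) :
    ∃ m, Legal H t m ∧ ∀ v, t' v ≤ after t m v := by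
  obtain ⟨t'', s, h1, h2, h3⟩ := exists_fill H (1 - r) (by linarith) t'
  obtain ⟨m, hm1, hm2, -⟩ := (h.trans h1).exists_move v₀ (by
    rcases h3 with h3 | h3
    · left; linarith
    · right; exact ⟨by linarith, h3⟩)
  exact ⟨m, hm1, fun v => by rw [hm2]; exact h1.le v⟩

lemma exists_legal (hc : ¬ FullyCovered H t) : ∃ m, Legal H t m := by
  have hV : Nonempty V := by
    by_contra hV
    apply hc
    intro E hE
    obtain ⟨v, -⟩ := H.edges_nonempty E hE
    exact absurd ⟨v⟩ hV
  obtain ⟨v₀⟩ := hV
  obtain ⟨m, hm, -⟩ := (Reach.refl (H := H) (t := t)).extend v₀ (by norm_num)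
  exact ⟨m, hm⟩

/-- If all complete plays have the property, then every player can ensure it. -/
lemma can_any {who first : Player} {P : ℝ → Prop} (v₀ : V)
    (h : ∀ L, IsCompletePlay H t L → P (totalWeight L)) : Can H t who first P := by
  classical
  have hne : Nonempty (Move V) := ⟨⟨0, fun _ => v₀, fun _ => 0, fun _ _ => rfl⟩⟩
  refine ⟨fun L => if hc : ∃ m, Legal H (final t L) m then hc.choose else hne.some, ?_, ?_⟩
  · intro L hL hF hcov hmov
    have := exists_legal hcov
    simp only [this, dif_pos]
    exact this.choose_spec
  · intro L hL hF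
    exact h L hL

lemma Can.mono {who first : Player} {P Q : ℝ → Prop} (h : Can H t who first P)
    (hPQ : ∀ y, P y → Q y) : Can H t who first Q := by
  obtain ⟨σ, h1, h2⟩ := h
  exact ⟨σ, h1, fun L hL hF => hPQ _ (h2 L hL hF)⟩

lemma le_lowerValue {first : Player} {x : ℝ} (h : Can H t .staller first (fun y => x ≤ y)) :
    (x : EReal) ≤ lowerValue H t first :=
  le_iSup₂_of_le (f := fun (x : ℝ) (_ : x ∈ {x : ℝ | ∃ σ, Ensures H t .staller first σ
    (fun y => x ≤ y)}) => (x : EReal)) x h le_rfl

lemma upperValue_le {first : Player} {x : ℝ} (h : Can H t .hitter first (fun y => y ≤ x)) :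
    upperValue H t first ≤ (x : EReal) :=
  iInf₂_le_of_le (f := fun (x : ℝ) (_ : x ∈ {x : ℝ | ∃ σ, Ensures H t .hitter first σ
    (fun y => y ≤ x)}) => (x : EReal)) x h le_rfl

/-! ### The value is well defined -/

lemma placed_le_sum_added (h : Legal H t m) (E : Finset V) (n : ℕ) :
    m.placed E n ≤ ∑ v ∈ E, m.added v := by
  have h1 : m.placed E n = ∑ v ∈ E, ∑ s ∈ range n, if m.vert s = v then m.wt s else 0 := by
    unfold Move.placed
    rw [Finset.sum_comm]
    refine Finset.sum_congr rfl fun s _ => ?_
    simp
  rw [h1]
  refine Finset.sum_le_sum fun v _ => ?_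
  unfold Move.added
  refine (h.wt_ite_summable v).sum_le_tsum _ fun k _ => ?_
  split_ifs
  · exact h.wt_nonneg k
  · exact le_rfl

/-- Every submove increases the sum of the loads at least by its weight. -/
lemma sum_load_after (h : Legal H t m) :
    ∑ E ∈ H.edges, load t E + m.weight ≤ ∑ E ∈ H.edges, load (after t m) E := by
  have key : ∀ n : ℕ, ∑ E ∈ H.edges, load t E + ∑ k ∈ range n, m.wt k ≤
      ∑ E ∈ H.edges, min 1 (∑ v ∈ E, t v + m.placed E n) := by
    intro n
    induction n with
    | zero => simp [Move.placed, load]
    | succ n ih =>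
      have hmono : ∀ E ∈ H.edges, min 1 (∑ v ∈ E, t v + m.placed E n) ≤
          min 1 (∑ v ∈ E, t v + m.placed E (n + 1)) := by
        intro E _
        refine min_le_min le_rfl ?_
        unfold Move.placed
        rw [Finset.sum_range_succ]
        have : 0 ≤ if m.vert n ∈ E then m.wt n else 0 := by
          split_ifs
          · exact h.wt_nonneg n
          · exact le_rfl
        linarith
      rw [Finset.sum_range_succ]
      rcases (h.wt_nonneg n).eq_or_lt with h0 | h0
      · have := Finset.sum_le_sum hmono
        linarith
      · have hn : (n : ℕ∞) < m.len := by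
          by_contra hn
          rw [m.wt_eq_zero n (not_lt.1 hn)] at h0
          exact lt_irrefl _ h0
        obtain ⟨E, hE, hv, hl⟩ := h.submove n hn
        have hp := h.placed_nonneg E n
        have hlt : load t E < 1 := by linarith
        rw [load_eq_sum hlt] at hl
        have h3 : min 1 (∑ v ∈ E, t v + m.placed E (n + 1)) =
            min 1 (∑ v ∈ E, t v + m.placed E n) + m.wt n := by
          have : m.placed E (n + 1) = m.placed E n + m.wt n := by
            unfold Move.placed
            rw [Finset.sum_range_succ, if_pos hv]
          rw [this, min_eq_right (by linarith), min_eq_right (by linarith)]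
          ring
        have h4 := Finset.sum_le_sum fun F (hF : F ∈ H.edges.erase E) =>
          hmono F (Finset.mem_of_mem_erase hF)
        have e1 := Finset.add_sum_erase H.edges
          (fun E => min 1 (∑ v ∈ E, t v + m.placed E n)) hE
        have e2 := Finset.add_sum_erase H.edges
          (fun E => min 1 (∑ v ∈ E, t v + m.placed E (n + 1))) hE
        linarith
  have hfin : ∀ n : ℕ, ∑ k ∈ range n, m.wt k ≤
      ∑ E ∈ H.edges, load (after t m) E - ∑ E ∈ H.edges, load t E := by
    intro n
    have h1 := key n
    have h2 : ∑ E ∈ H.edges, min 1 (∑ v ∈ E, t v + m.placed E n) ≤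
        ∑ E ∈ H.edges, load (after t m) E := by
      refine Finset.sum_le_sum fun E _ => ?_
      unfold load after
      refine min_le_min le_rfl ?_
      rw [Finset.sum_add_distrib]
      have := placed_le_sum_added h E n
      linarith
    linarith
  have := Real.tsum_le_of_sum_range_le h.wt_nonneg hfin
  unfold Move.weight
  linarith

lemma covered_of_sum {t : V → ℝ} (h : ∑ E ∈ H.edges, (1 - load t E) ≤ 0) :
    FullyCovered H t := by
  intro E hE
  have h1 : ∀ E ∈ H.edges, 0 ≤ 1 - load t E := fun E _ => by
    have := load_le_one t E
    linarith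
  have h2 := Finset.single_le_sum h1 hE
  have := load_le_one t E
  linarith

lemma deficit_after (h : Legal H t m) :
    ∑ E ∈ H.edges, (1 - load (after t m) E) ≤ ∑ E ∈ H.edges, (1 - load t E) - m.weight := by
  have := sum_load_after h
  simp only [Finset.sum_sub_distrib]
  linarith

lemma follows_nil {who first : Player} {σ : Strategy V} : Follows who first σ [] := by
  intro L₁ m L₂ h
  simp at h

lemma follows_cons_iff {who first : Player} {σ : Strategy V} {m : Move V} {L : List (Move V)} :
    Follows who first σ (m :: L) ↔
    (first = who → m = σ []) ∧ Follows who first.other (fun L' => σ (m :: L')) L := by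
  refine ⟨follows_cons, ?_⟩
  rintro ⟨h1, h2⟩ L₁ m' L₂ hL hm
  cases L₁ with
  | nil =>
    simp only [List.nil_append, List.cons.injEq] at hL
    rw [← hL.1]
    exact h1 hm
  | cons m'' L₁ =>
    simp only [List.cons_append, List.cons.injEq] at hL
    obtain ⟨rfl, hL⟩ := hL
    exact h2 L₁ m' L₂ hL (by simpa [mover] using hm)

lemma IsStrategy.tail {who first : Player} {σ : Strategy V} (h : IsStrategy H t who first σ)
    (hc : ¬ FullyCovered H t) (hm : Legal H t m) (hf : first = who → m = σ []) :
    IsStrategy H (after t m) who first.other (fun L' => σ (m :: L')) := by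
  intro L hL hF hcov hmov
  exact h (m :: L) ⟨hc, hm, hL⟩ (follows_cons_iff.2 ⟨hf, hF⟩) hcov (by simpa [mover] using hmov)

/-- Two legal strategies of the two players produce a complete play. -/
lemma exists_complete (n : ℕ) : ∀ (t : V → ℝ) (first : Player) (σ τ : Strategy V),
    IsStrategy H t .staller first σ → IsStrategy H t .hitter first τ →
    ∑ E ∈ H.edges, (1 - load t E) ≤ n →
    ∃ L, IsCompletePlay H t L ∧ Follows .staller first σ L ∧ Follows .hitter first τ L := by
  induction n with
  | zero =>
    intro t first σ τ _ _ h
    rw [Nat.cast_zero] at h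
    exact ⟨[], ⟨trivial, covered_of_sum h⟩, follows_nil, follows_nil⟩
  | succ n ih =>
    intro t first σ τ hσ hτ h
    by_cases hc : FullyCovered H t
    · exact ⟨[], ⟨trivial, hc⟩, follows_nil, follows_nil⟩
    obtain ⟨m, hm, hms, hmh⟩ : ∃ m, Legal H t m ∧ (first = .staller → m = σ []) ∧
        (first = .hitter → m = τ []) := by
      cases first with
      | staller => exact ⟨σ [], hσ [] trivial follows_nil hc rfl, fun _ => rfl, by simp⟩
      | hitter => exact ⟨τ [], hτ [] trivial follows_nil hc rfl, by simp, fun _ => rfl⟩
    rcases hm.total with h1 | h1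
    · have hd := deficit_after hm
      push_cast at h
      obtain ⟨L, hL1, hL2, hL3⟩ := ih (after t m) first.other _ _ (hσ.tail hc hm hms)
        (hτ.tail hc hm hmh) (by linarith)
      exact ⟨m :: L, ⟨⟨hc, hm, hL1.1⟩, hL1.2⟩, follows_cons_iff.2 ⟨hms, hL2⟩,
        follows_cons_iff.2 ⟨hmh, hL3⟩⟩
    · exact ⟨[m], ⟨⟨hc, hm, trivial⟩, h1.2⟩, follows_cons_iff.2 ⟨hms, follows_nil⟩,
        follows_cons_iff.2 ⟨hmh, follows_nil⟩⟩

lemma exists_deficit_le (H : FinHypergraph V) (t : V → ℝ) :
    ∃ n : ℕ, ∑ E ∈ H.edges, (1 - load t E) ≤ n := exists_nat_ge _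

/-- The game with the winning condition `P` for Staller is determined. -/
lemma determined [Nonempty V] (n : ℕ) : ∀ (t : V → ℝ) (first : Player) (P : ℝ → Prop),
    ∑ E ∈ H.edges, (1 - load t E) ≤ n →
    Can H t .staller first P ∨ Can H t .hitter first (fun y => ¬ P y) := by
  classical
  have hcovered : ∀ (t : V → ℝ) (first : Player) (P : ℝ → Prop), FullyCovered H t →
      Can H t .staller first P ∨ Can H t .hitter first (fun y => ¬ P y) := by
    intro t first P hc
    have m₀ : Move V := ⟨0, fun _ => Classical.arbitrary V, fun _ => 0, fun _ _ => rfl⟩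
    by_cases hP : P 0
    · exact Or.inl (can_covered hc m₀ hP)
    · exact Or.inr (can_covered hc m₀ hP)
  induction n with
  | zero =>
    intro t first P h
    rw [Nat.cast_zero] at h
    exact hcovered t first P (covered_of_sum h)
  | succ n ih =>
    intro t first P h
    by_cases hc : FullyCovered H t
    · exact hcovered t first P hc
    have step : ∀ m, Legal H t m →
        Can H (after t m) .staller first.other (fun y => P (m.weight + y)) ∨
        Can H (after t m) .hitter first.other (fun y => ¬ P (m.weight + y)) := by
      intro m hm
      rcases hm.total with h1 | h1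
      · have hd := deficit_after hm
        push_cast at h
        exact ih (after t m) first.other _ (by linarith)
      · exact hcovered _ _ _ h1.2
    cases first with
    | staller =>
      by_cases hex : ∃ m, Legal H t m ∧
          Can H (after t m) .staller .hitter (fun y => P (m.weight + y))
      · obtain ⟨m, hm, hcan⟩ := hex
        exact Or.inl (can_own hc hm hcan)
      · push Not at hex
        exact Or.inr (can_opp (by decide) hc fun m hm => (step m hm).resolve_left (hex m hm))
    | hitter =>
      by_cases hex : ∃ m, Legal H t m ∧
          Can H (after t m) .hitter .staller (fun y => ¬ P (m.weight + y))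
      · obtain ⟨m, hm, hcan⟩ := hex
        exact Or.inr (can_own hc hm hcan)
      · push Not at hex
        exact Or.inl (can_opp (by decide) hc fun m hm => (step m hm).resolve_right (hex m hm))

/-- The value is well defined: what Staller can secure is what Edge-hitter can secure. -/
theorem lowerValue_eq_upperValue [Nonempty V] (H : FinHypergraph V) (t : V → ℝ) (first : Player) :
    lowerValue H t first = upperValue H t first := by
  obtain ⟨n, hn⟩ := exists_deficit_le H t
  apply le_antisymm
  · refine iSup₂_le fun x hx => le_iInf₂ fun y hy => ?_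
    obtain ⟨σ, hσ1, hσ2⟩ := hx
    obtain ⟨τ, hτ1, hτ2⟩ := hy
    obtain ⟨L, hL, hL1, hL2⟩ := exists_complete n t first σ τ hσ1 hτ1 hn
    exact EReal.coe_le_coe_iff.2 ((hσ2 L hL hL1).trans (hτ2 L hL hL2))
  · refine le_of_forall_gt_imp_ge_of_dense fun z hz => ?_
    induction z with
    | bot => exact absurd hz not_lt_bot
    | top => exact le_top
    | coe x =>
      rcases determined n t first (fun y => x ≤ y) hn with h | h
      · exact absurd (le_lowerValue h) (not_le.2 hz)
      · exact upperValue_le (h.mono fun y hy => (not_le.1 hy).le)

end lemmas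

end Pool.Agent.R185.FracTrans
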