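import Pool.Agent.R185.FracTrans

/-!
# A hypergraph on which integer (greedy) play is not optimal for Staller

Vertices `z = 0, a = 1, b = 2, c = 3, d = 4, x = 5, y = 6, y' = 7` and edges
`{z}, {a}, {a,b}, {b,c}, {c,d}, {d}, {x,y}, {x,y'}`.
-/

open Finset

namespace Pool.Agent.R185.FracTrans

/-- The hypergraph of the counterexample. -/
def H₀ : FinHypergraph (Fin 8) where
  edges := {{0}, {1}, {1, 2}, {2, 3}, {3, 4}, {4}, {5, 6}, {5, 7}}
  edges_nonempty := by
    intro E hE
    simp only [Finset.mem_insert, Finset.mem_singleton] at hE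
    rcases hE with rfl | rfl | rfl | rfl | rfl | rfl | rfl | rfl <;> simp

lemma sum_pair_fin (t : Fin 8 → ℝ) {i j : Fin 8} (h : i ≠ j) :
    ∑ v ∈ ({i, j} : Finset (Fin 8)), t v = t i + t j := Finset.sum_pair h

lemma covered_iff (t : Fin 8 → ℝ) : FullyCovered H₀ t ↔
    1 ≤ t 0 ∧ 1 ≤ t 1 ∧ 1 ≤ t 1 + t 2 ∧ 1 ≤ t 2 + t 3 ∧ 1 ≤ t 3 + t 4 ∧ 1 ≤ t 4 ∧
      1 ≤ t 5 + t 6 ∧ 1 ≤ t 5 + t 7 := by
  have key : ∀ E : Finset (Fin 8), load t E = 1 ↔ 1 ≤ ∑ v ∈ E, t v :=
    fun E => ⟨one_le_sum_of_load, load_eq_one⟩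
  unfold FullyCovered H₀
  simp only [Finset.mem_insert, Finset.mem_singleton, forall_eq_or_imp, forall_eq, key,
    Finset.sum_singleton]
  rw [sum_pair_fin t (by decide), sum_pair_fin t (by decide), sum_pair_fin t (by decide),
    sum_pair_fin t (by decide), sum_pair_fin t (by decide)]

lemma covered_sum {t : Fin 8 → ℝ} (ht : ∀ v, 0 ≤ t v) (h : FullyCovered H₀ t) :
    5 + t 6 ≤ ∑ v, t v ∧ 4 + (t 2 + t 3) ≤ ∑ v, t v := by
  rw [covered_iff] at h
  obtain ⟨h0, h1, -, h23, -, h4, h56, h57⟩ := h
  rw [Fin.sum_univ_eight]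
  have := ht 7
  have := ht 6
  constructor <;> linarith

lemma not_covered_of_sum {t : Fin 8 → ℝ} (ht : ∀ v, 0 ≤ t v) (h : ∑ v, t v < 5) :
    ¬ FullyCovered H₀ t := by
  intro hc
  have := (covered_sum ht hc).1
  have := ht 6
  linarith

lemma after_nonneg {V : Type} [DecidableEq V] {H : FinHypergraph V} {t : V → ℝ} {m : Move V}
    (ht : ∀ v, 0 ≤ t v) (hm : Legal H t m) (v : V) : 0 ≤ after t m v := by
  have := ht v
  have := hm.added_nonneg v
  unfold after
  linarith

lemma le_after {V : Type} [DecidableEq V] {H : FinHypergraph V} {t : V → ℝ} {m : Move V}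
    (hm : Legal H t m) (v : V) : t v ≤ after t m v := by
  have := hm.added_nonneg v
  unfold after
  linarith

lemma sum_after {V : Type} [DecidableEq V] [Fintype V] {H : FinHypergraph V} {t : V → ℝ}
    {m : Move V} (hm : Legal H t m) : ∑ v, after t m v = ∑ v, t v + m.weight := by
  unfold after
  rw [Finset.sum_add_distrib, hm.sum_added]

lemma weight_eq_one {t : Fin 8 → ℝ} {m : Move (Fin 8)} (ht : ∀ v, 0 ≤ t v)
    (hm : Legal H₀ t m) (h : ∑ v, t v < 4) : m.weight = 1 := by
  rcases hm.total with h1 | h1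
  · exact h1
  · exfalso
    refine not_covered_of_sum (after_nonneg ht hm) ?_ h1.2
    rw [sum_after hm]
    linarith [h1.1]

/-- the winning condition for Staller: the final total weight is at least `31/6` -/
def Q (t : Fin 8 → ℝ) : ℝ → Prop := fun y => 31 / 6 ≤ ∑ v, t v + y

lemma Q_after {t : Fin 8 → ℝ} {m : Move (Fin 8)} (hm : Legal H₀ t m) (y : ℝ)
    (h : Q (after t m) y) : Q t (m.weight + y) := by
  unfold Q at *
  rw [sum_after hm] at h
  linarith

/-- Staller has won if `y` carries weight `1/6`, or `b, c` carry weight `7/6` together. -/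
lemma can_of_waste {t : Fin 8 → ℝ} {who first : Player} (ht : ∀ v, 0 ≤ t v)
    (h : 1 / 6 ≤ t 6 ∨ 7 / 6 ≤ t 2 + t 3) : Can H₀ t who first (Q t) := by
  refine can_any (0 : Fin 8) fun L hL => ?_
  unfold Q
  rw [← hL.1.sum_final]
  have h1 : ∀ v, 0 ≤ final t L v := fun v => le_trans (ht v) (hL.1.le_final v)
  have h2 := covered_sum h1 hL.2
  have h6 := hL.1.le_final 6
  have h22 := hL.1.le_final 2
  have h33 := hL.1.le_final 3
  rcases h with h | h
  · linarith [h2.1]
  · linarith [h2.2]

lemma load_pair_le (t : Fin 8 → ℝ) {i j : Fin 8} (h : i ≠ j) : load t {i, j} ≤ t i + t j := by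
  have := load_le_sum t {i, j}
  rwa [sum_pair_fin t h] at this

lemma load_single_le (t : Fin 8 → ℝ) (i : Fin 8) : load t {i} ≤ t i := by
  have := load_le_sum t {i}
  simpa using this

/-- Staller's second move. -/
lemma staller_second {t : Fin 8 → ℝ} (ht : ∀ v, 0 ≤ t v) (hs : ∑ v, t v ≤ 3)
    (h0 : 1 / 2 ≤ t 0) (h2 : 1 / 2 ≤ t 2) (h5 : 5 / 6 ≤ t 5) :
    ∃ m, Legal H₀ t m ∧ 7 / 6 ≤ after t m 2 + after t m 3 := by
  rw [Fin.sum_univ_eight] at hs
  have t1 := ht 1
  have t3 := ht 3
  have t4 := ht 4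
  have t6 := ht 6
  have t7 := ht 7
  set r : ℝ := max 0 (1 - t 2 - t 3) with hr
  have hr0 : 0 ≤ r := le_max_left _ _
  have hr1 : 1 - t 2 - t 3 ≤ r := le_max_right _ _
  have hr2 : r ≤ 1 / 2 := by
    rw [hr]; refine max_le (by norm_num) (by linarith)
  have hr3 : 0 < r → r = 1 - t 2 - t 3 := by
    intro h
    rcases max_choice 0 (1 - t 2 - t 3) with h' | h'
    · rw [hr, h'] at h; exact absurd h (lt_irrefl _)
    · exact h'
  by_cases hc : t 3 + t 4 ≤ 5 / 6
  · -- play `b` until `{b, c}` is covered, then `c`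
    have e1 := reach_single (H := H₀) (t := t) 2 r hr0 {2, 3} (by decide) (by decide)
      (fun h => by
        have := load_pair_le t (i := 2) (j := 3) (by decide)
        have := hr3 h
        linarith)
    have e2 := reach_single (H := H₀) (t := fun u => t u + if u = 2 then r else 0) 3 (1 / 6)
      (by norm_num) {3, 4} (by decide) (by decide)
      (fun _ => by
        have := load_pair_le (fun u => t u + if u = 2 then r else 0) (i := 3) (j := 4) (by decide)
        simp at this
        linarith)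
    obtain ⟨m, hm1, hm2⟩ := (e1.trans e2).extend 0 (by linarith)
    refine ⟨m, hm1, ?_⟩
    have a2 := hm2 2
    have a3 := hm2 3
    simp at a2 a3
    linarith
  · push Not at hc
    have hc' : t 1 + t 2 ≤ 5 / 6 := by linarith
    have e1 := reach_single (H := H₀) (t := t) 3 r hr0 {2, 3} (by decide) (by decide)
      (fun h => by
        have := load_pair_le t (i := 2) (j := 3) (by decide)
        have := hr3 h
        linarith)
    have e2 := reach_single (H := H₀) (t := fun u => t u + if u = 3 then r else 0) 2 (1 / 6)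
      (by norm_num) {1, 2} (by decide) (by decide)
      (fun _ => by
        have := load_pair_le (fun u => t u + if u = 3 then r else 0) (i := 1) (j := 2) (by decide)
        simp at this
        linarith)
    obtain ⟨m, hm1, hm2⟩ := (e1.trans e2).extend 0 (by linarith)
    refine ⟨m, hm1, ?_⟩
    have a2 := hm2 2
    have a3 := hm2 3
    simp at a2 a3
    linarith

/-- Staller to move, nearly all of the weight is on `x`. -/
lemma staller_first {t : Fin 8 → ℝ} (ht : ∀ v, 0 ≤ t v) (hs : ∑ v, t v ≤ 1)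
    (h5 : 5 / 6 ≤ t 5) : Can H₀ t .staller .staller (Q t) := by
  have hs' := hs
  rw [Fin.sum_univ_eight] at hs'
  have t0 := ht 0
  have t1 := ht 1
  have t2 := ht 2
  have t3 := ht 3
  have t4 := ht 4
  have t6 := ht 6
  have t7 := ht 7
  have e1 := reach_single (H := H₀) (t := t) 2 (1 / 2) (by norm_num) {2, 3} (by decide) (by decide)
    (fun _ => by
      have := load_pair_le t (i := 2) (j := 3) (by decide)
      linarith)
  have e2 := reach_single (H := H₀) (t := fun u => t u + if u = 2 then (1 / 2) else 0) 0 (1 / 2)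
    (by norm_num) {0} (by decide) (by decide)
    (fun _ => by
      have := load_single_le (fun u => t u + if u = 2 then (1 / 2) else 0) 0
      simp at this
      linarith)
  obtain ⟨m, hm1, hm2, hm3⟩ := (e1.trans e2).exists_move 0 (Or.inl (by norm_num))
  have hnc : ¬ FullyCovered H₀ t := not_covered_of_sum ht (by linarith)
  refine can_own hnc hm1 (Can.mono (P := Q (after t m)) ?_ fun y hy => Q_after hm1 y hy)
  have hn1 := after_nonneg ht hm1
  have hsum1 := sum_after hm1
  have hw1 := hm1.weight_le_one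
  refine can_opp (by decide) (not_covered_of_sum hn1 (by linarith)) fun m' hm' => ?_
  refine Can.mono (P := Q (after (after t m) m')) ?_ fun y hy => Q_after hm' y hy
  have hn2 := after_nonneg hn1 hm'
  have hsum2 := sum_after hm'
  have hw2 := hm'.weight_le_one
  have a0 : 1 / 2 ≤ after (after t m) m' 0 := by
    refine le_trans ?_ (le_after hm' 0)
    rw [hm2]; simp; linarith
  have a2 : 1 / 2 ≤ after (after t m) m' 2 := by
    refine le_trans ?_ (le_after hm' 2)
    rw [hm2]; simp; linarith
  have a5 : 5 / 6 ≤ after (after t m) m' 5 :=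
    le_trans h5 (le_trans (le_after hm1 5) (le_after hm' 5))
  obtain ⟨m'', hm''1, hm''2⟩ := staller_second hn2 (by linarith) a0 a2 a5
  refine can_own (not_covered_of_sum hn2 (by linarith)) hm''1
    (Can.mono (P := Q (after (after (after t m) m') m'')) ?_ fun y hy => Q_after hm''1 y hy)
  exact can_of_waste (after_nonneg hn2 hm''1) (Or.inr hm''2)

/-- In the game in which Edge-hitter starts from the zero cover function, Staller can guarantee
the value `31/6`. -/
theorem staller_main : Can H₀ (fun _ => 0) .staller .hitter (fun y => 31 / 6 ≤ y) := by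
  have hnc : ¬ FullyCovered H₀ (fun _ => 0) := not_covered_of_sum (fun _ => le_rfl) (by simp)
  refine can_opp (by decide) hnc fun m hm => ?_
  have hn := after_nonneg (t := fun _ => 0) (fun _ => le_rfl) hm
  have hsum := sum_after hm
  have hw := hm.weight_le_one
  have hsum' : ∑ v, after (fun _ => 0) m v = m.weight := by
    rw [hsum]; simp
  refine Can.mono (P := Q (after (fun _ => 0) m)) ?_ fun y hy => ?_
  swap
  · have := Q_after hm y hy
    unfold Q at this
    simpa using this
  show Can H₀ (after (fun _ => 0) m) .staller .staller _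
  by_cases h5 : 5 / 6 ≤ after (fun _ => 0) m 5
  · exact staller_first hn (by linarith) h5
  · push Not at h5
    by_cases h6 : 1 / 6 ≤ after (fun _ => 0) m 6
    · exact can_of_waste hn (Or.inl h6)
    · push Not at h6
      set t := after (fun _ => (0 : ℝ)) m with ht
      have e1 := reach_single (H := H₀) (t := t) 6 (1 / 6 - t 6) (by linarith) {5, 6} (by decide)
        (by decide) (fun _ => by
          have := load_pair_le t (i := 5) (j := 6) (by decide)
          linarith)
      have h60 := hn 6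
      obtain ⟨m', hm'1, hm'2⟩ := e1.extend 0 (by linarith)
      refine can_own (not_covered_of_sum hn (by linarith)) hm'1
        (Can.mono (P := Q (after t m')) ?_ fun y hy => Q_after hm'1 y hy)
      refine can_of_waste (after_nonneg hn hm'1) (Or.inl ?_)
      have := hm'2 6
      simp at this
      linarith

/-! ### Edge-hitter's side -/

/-- the indicator function of a vertex -/
def e (v : Fin 8) : Fin 8 → ℝ := fun u => if u = v then 1 else 0

/-- An integer move: a single submove `(v, 1)`. -/
def IsIntegerMove {V : Type} (m : Move V) (v : V) : Prop :=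
  m.len = 1 ∧ m.vert 0 = v ∧ m.wt 0 = 1

lemma IsIntegerMove.wt {V : Type} {m : Move V} {v : V} (h : IsIntegerMove m v) (k : ℕ) :
    m.wt k = if k = 0 then 1 else 0 := by
  split_ifs with hk
  · rw [hk]; exact h.2.2
  · refine m.wt_eq_zero k ?_
    rw [h.1]
    exact_mod_cast Nat.one_le_iff_ne_zero.2 hk

lemma IsIntegerMove.weight {V : Type} {m : Move V} {v : V} (h : IsIntegerMove m v) :
    m.weight = 1 := by
  unfold Move.weight
  simp only [h.wt]
  simp

lemma IsIntegerMove.after {V : Type} [DecidableEq V] {m : Move V} {v : V}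
    (h : IsIntegerMove m v) (t : V → ℝ) :
    after t m = fun u => t u + if u = v then 1 else 0 := by
  funext u
  unfold FracTrans.after Move.added
  congr 1
  rw [tsum_eq_single 0]
  · rw [h.wt 0, h.2.1]
    simp [eq_comm]
  · intro k hk
    rw [h.wt k]
    simp [hk]

/-- the integer move at `v` -/
noncomputable def intMove {V : Type} (v : V) : Move V where
  len := 1
  vert := fun _ => v
  wt := fun k => if k = 0 then 1 else 0
  wt_eq_zero := by
    intro k hk
    have : 1 ≤ k := by exact_mod_cast hk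
    simp; omega

lemma intMove_isIntegerMove {V : Type} (v : V) : IsIntegerMove (intMove v) v :=
  ⟨rfl, rfl, by simp [intMove]⟩

lemma intMove_legal {V : Type} [DecidableEq V] {H : FinHypergraph V} {t : V → ℝ} {v : V}
    {E : Finset V} (hE : E ∈ H.edges) (hv : v ∈ E) (hl : load t E ≤ 0) :
    Legal H t (intMove v) := by
  have hi := intMove_isIntegerMove v
  refine ⟨?_, ?_, ?_, Or.inl hi.weight⟩
  · intro k hk
    rw [hi.wt]
    split_ifs <;> norm_num
  · intro k hk
    have hk0 : k = 0 := by
      have : (k : ℕ∞) < 1 := hk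
      have : k < 1 := by exact_mod_cast this
      omega
    subst hk0
    refine ⟨E, hE, hv, ?_⟩
    rw [hi.wt]
    simp [Move.placed]
    linarith
  · exact summable_of_ne_finset_zero (s := {0}) fun k hk => by
      rw [hi.wt]; simp at hk; simp [hk]

/-- Edge-hitter finishes the game with two submoves. -/
lemma finish {t : Fin 8 → ℝ} {p q : Fin 8} {wp wq : ℝ} (hp : 0 ≤ wp) (hq : 0 ≤ wq)
    {Ep Eq : Finset (Fin 8)} (hEp : Ep ∈ H₀.edges) (hEq : Eq ∈ H₀.edges) (hpE : p ∈ Ep)
    (hqE : q ∈ Eq) (h1 : load t Ep + wp ≤ 1)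
    (h2 : load (fun u => t u + if u = p then wp else 0) Eq + wq ≤ 1) (hw : wp + wq ≤ 1)
    (hcov : FullyCovered H₀ fun u => (t u + if u = p then wp else 0) + if u = q then wq else 0) :
    ∃ m, Legal H₀ t m ∧ m.weight ≤ 1 ∧ FullyCovered H₀ (after t m) := by
  have e1 := reach_single (H := H₀) (t := t) p wp hp Ep hEp hpE fun _ => h1
  have e2 := reach_single (H := H₀) (t := fun u => t u + if u = p then wp else 0) q wq hq Eq hEq
    hqE fun _ => h2
  obtain ⟨m, hm1, hm2, hm3⟩ := (e1.trans e2).exists_move 0 (Or.inr ⟨hw, hcov⟩)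
  exact ⟨m, hm1, by rw [hm3]; exact hw, by rw [hm2]; exact hcov⟩

lemma added_zero {t : Fin 8 → ℝ} {m : Move (Fin 8)} (hm : Legal H₀ t m) (u : Fin 8)
    (hu : ∀ E ∈ H₀.edges, u ∈ E → 1 ≤ ∑ v ∈ E, t v) : m.added u = 0 :=
  hm.added_eq_zero fun E hE huE => load_eq_one (hu E hE huE)

/-- Edge-hitter's reply and his last move, if the first two moves were the integer moves at `x`
and at `v`; the reply is the integer move at `v'`. -/
def GoodReply (t : Fin 8 → ℝ) (v' : Fin 8) : Prop :=
  Legal H₀ t (intMove v') ∧ ∀ m₃, Legal H₀ (after t (intMove v')) m₃ → m₃.weight = 1 ∧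
    ∃ m₄, Legal H₀ (after (after t (intMove v')) m₃) m₄ ∧ m₄.weight ≤ 1 ∧
      FullyCovered H₀ (after (after (after t (intMove v')) m₃) m₄)

/-- the cover function after integer moves at `x` and `v` -/
def pos (v : Fin 8) : Fin 8 → ℝ := fun u => (if u = 5 then 1 else 0) + if u = v then 1 else 0

/-- the cover function after integer moves at `x`, `v` and `v'` -/
def pos₂ (v v' : Fin 8) : Fin 8 → ℝ := fun u => pos v u + if u = v' then 1 else 0

lemma good_aux (v v' : Fin 8) (E₀ : Finset (Fin 8)) (hE₀ : E₀ ∈ H₀.edges) (hv' : v' ∈ E₀)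
    (hload : load (pos v) E₀ ≤ 0)
    (hfin : ∀ a : Fin 8 → ℝ, (∀ u, 0 ≤ a u) → ∑ u, a u = 1 →
      (∀ u, (∀ E ∈ H₀.edges, u ∈ E → 1 ≤ ∑ w ∈ E, pos₂ v v' w) → a u = 0) →
      ∃ m₄, Legal H₀ (fun u => pos₂ v v' u + a u) m₄ ∧ m₄.weight ≤ 1 ∧
        FullyCovered H₀ (after (fun u => pos₂ v v' u + a u) m₄)) :
    GoodReply (pos v) v' := by
  refine ⟨intMove_legal hE₀ hv' hload, fun m₃ hm₃ => ?_⟩
  have ha : after (pos v) (intMove v') = pos₂ v v' :=
    (intMove_isIntegerMove v').after (pos v)
  rw [ha] at hm₃ ⊢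
  have hn : ∀ u, 0 ≤ pos₂ v v' u := by
    intro u
    unfold pos₂ pos
    split_ifs <;> norm_num
  have hs : ∑ u, pos₂ v v' u = 3 := by
    unfold pos₂ pos
    simp only [Finset.sum_add_distrib, Finset.sum_ite_eq', Finset.mem_univ, if_true]
    norm_num
  have hw := weight_eq_one hn hm₃ (by rw [hs]; norm_num)
  exact ⟨hw, hfin m₃.added hm₃.added_nonneg (by rw [hm₃.sum_added, hw])
    fun u hu => added_zero hm₃ u hu⟩

lemma good0 : GoodReply (pos 0) 1 := by
  refine good_aux 0 1 {1} (by decide) (by decide)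
    ((load_single_le _ _).trans (by simp [pos])) fun a hn hsum hz => ?_
  rw [Fin.sum_univ_eight] at hsum
  have z0 := hz 0 (by unfold pos₂ pos; simp [H₀])
  have z1 := hz 1 (by unfold pos₂ pos; simp [H₀])
  have z5 := hz 5 (by unfold pos₂ pos; simp [H₀])
  have z6 := hz 6 (by unfold pos₂ pos; simp [H₀])
  have z7 := hz 7 (by unfold pos₂ pos; simp [H₀])
  have n2 := hn 2
  have n3 := hn 3
  have n4 := hn 4
  refine finish (p := 4) (q := 3) (wp := 1 - a 4) (wq := 1 - a 2 - a 3)
    (Ep := {4}) (Eq := {2, 3})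
    (by linarith) (by linarith) (by decide) (by decide) (by decide) (by decide) ?_ ?_ ?_ ?_
  · refine (add_le_add_left (load_single_le _ _) _).trans ?_
    simp [pos₂, pos]
  · refine (add_le_add_left (load_pair_le _ (by decide)) _).trans ?_
    simp [pos₂, pos]
  · linarith
  · rw [covered_iff]
    simp [pos₂, pos, z0, z1, z5, z6, z7]
    refine ⟨?_, ?_⟩ <;> linarith

lemma good1 : GoodReply (pos 1) 4 := by
  refine good_aux 1 4 {4} (by decide) (by decide)
    ((load_single_le _ _).trans (by simp [pos])) fun a hn hsum hz => ?_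
  rw [Fin.sum_univ_eight] at hsum
  have z1 := hz 1 (by unfold pos₂ pos; simp [H₀])
  have z4 := hz 4 (by unfold pos₂ pos; simp [H₀])
  have z5 := hz 5 (by unfold pos₂ pos; simp [H₀])
  have z6 := hz 6 (by unfold pos₂ pos; simp [H₀])
  have z7 := hz 7 (by unfold pos₂ pos; simp [H₀])
  have n0 := hn 0
  have n2 := hn 2
  have n3 := hn 3
  refine finish (p := 0) (q := 2) (wp := 1 - a 0) (wq := 1 - a 2 - a 3)
    (Ep := {0}) (Eq := {2, 3})
    (by linarith) (by linarith) (by decide) (by decide) (by decide) (by decide) ?_ ?_ ?_ ?_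
  · refine (add_le_add_left (load_single_le _ _) _).trans ?_
    simp [pos₂, pos]
  · refine (add_le_add_left (load_pair_le _ (by decide)) _).trans ?_
    simp [pos₂, pos]
    try linarith
  · linarith
  · rw [covered_iff]
    simp [pos₂, pos, z1, z4, z5, z6, z7]
    refine ⟨?_, ?_, ?_⟩ <;> linarith

lemma good2 : GoodReply (pos 2) 4 := by
  refine good_aux 2 4 {4} (by decide) (by decide)
    ((load_single_le _ _).trans (by simp [pos])) fun a hn hsum hz => ?_
  rw [Fin.sum_univ_eight] at hsum
  have z2 := hz 2 (by unfold pos₂ pos; simp [H₀])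
  have z3 := hz 3 (by unfold pos₂ pos; simp [H₀])
  have z4 := hz 4 (by unfold pos₂ pos; simp [H₀])
  have z5 := hz 5 (by unfold pos₂ pos; simp [H₀])
  have z6 := hz 6 (by unfold pos₂ pos; simp [H₀])
  have z7 := hz 7 (by unfold pos₂ pos; simp [H₀])
  have n0 := hn 0
  have n1 := hn 1
  refine finish (p := 0) (q := 1) (wp := 1 - a 0) (wq := 1 - a 1)
    (Ep := {0}) (Eq := {1})
    (by linarith) (by linarith) (by decide) (by decide) (by decide) (by decide) ?_ ?_ ?_ ?_
  · refine (add_le_add_left (load_single_le _ _) _).trans ?_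
    simp [pos₂, pos]
  · refine (add_le_add_left (load_single_le _ _) _).trans ?_
    simp [pos₂, pos]
  · linarith
  · rw [covered_iff]
    simp [pos₂, pos, z2, z3, z4, z5, z6, z7]

lemma good3 : GoodReply (pos 3) 1 := by
  refine good_aux 3 1 {1} (by decide) (by decide)
    ((load_single_le _ _).trans (by simp [pos])) fun a hn hsum hz => ?_
  rw [Fin.sum_univ_eight] at hsum
  have z1 := hz 1 (by unfold pos₂ pos; simp [H₀])
  have z2 := hz 2 (by unfold pos₂ pos; simp [H₀])
  have z3 := hz 3 (by unfold pos₂ pos; simp [H₀])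
  have z5 := hz 5 (by unfold pos₂ pos; simp [H₀])
  have z6 := hz 6 (by unfold pos₂ pos; simp [H₀])
  have z7 := hz 7 (by unfold pos₂ pos; simp [H₀])
  have n0 := hn 0
  have n4 := hn 4
  refine finish (p := 0) (q := 4) (wp := 1 - a 0) (wq := 1 - a 4)
    (Ep := {0}) (Eq := {4})
    (by linarith) (by linarith) (by decide) (by decide) (by decide) (by decide) ?_ ?_ ?_ ?_
  · refine (add_le_add_left (load_single_le _ _) _).trans ?_
    simp [pos₂, pos]
  · refine (add_le_add_left (load_single_le _ _) _).trans ?_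
    simp [pos₂, pos]
  · linarith
  · rw [covered_iff]
    simp [pos₂, pos, z1, z2, z3, z5, z6, z7]

lemma good4 : GoodReply (pos 4) 1 := by
  refine good_aux 4 1 {1} (by decide) (by decide)
    ((load_single_le _ _).trans (by simp [pos])) fun a hn hsum hz => ?_
  rw [Fin.sum_univ_eight] at hsum
  have z1 := hz 1 (by unfold pos₂ pos; simp [H₀])
  have z4 := hz 4 (by unfold pos₂ pos; simp [H₀])
  have z5 := hz 5 (by unfold pos₂ pos; simp [H₀])
  have z6 := hz 6 (by unfold pos₂ pos; simp [H₀])
  have z7 := hz 7 (by unfold pos₂ pos; simp [H₀])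
  have n0 := hn 0
  have n2 := hn 2
  have n3 := hn 3
  refine finish (p := 0) (q := 2) (wp := 1 - a 0) (wq := 1 - a 2 - a 3)
    (Ep := {0}) (Eq := {2, 3})
    (by linarith) (by linarith) (by decide) (by decide) (by decide) (by decide) ?_ ?_ ?_ ?_
  · refine (add_le_add_left (load_single_le _ _) _).trans ?_
    simp [pos₂, pos]
  · refine (add_le_add_left (load_pair_le _ (by decide)) _).trans ?_
    simp [pos₂, pos]
    try linarith
  · linarith
  · rw [covered_iff]
    simp [pos₂, pos, z1, z4, z5, z6, z7]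
    refine ⟨?_, ?_, ?_⟩ <;> linarith

lemma pos_nonneg (v u : Fin 8) : 0 ≤ pos v u := by
  unfold pos
  split_ifs <;> norm_num

lemma sum_pos (v : Fin 8) : ∑ u, pos v u = 2 := by
  unfold pos
  simp only [Finset.sum_add_distrib, Finset.sum_ite_eq', Finset.mem_univ, if_true]
  norm_num

/-- Edge-hitter can ensure that at most `3` more units are placed. -/
lemma GoodReply.can {v v' : Fin 8} (h : GoodReply (pos v) v') :
    Can H₀ (pos v) .hitter .hitter (fun y => y ≤ 3) := by
  obtain ⟨h1, h2⟩ := h
  have hw := (intMove_isIntegerMove v').weight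
  have hn1 := after_nonneg (pos_nonneg v) h1
  have hs1 := sum_after h1
  rw [sum_pos, hw] at hs1
  refine can_own (not_covered_of_sum (pos_nonneg v) (by rw [sum_pos]; norm_num)) h1 ?_
  refine can_opp (by decide) (not_covered_of_sum hn1 (by rw [hs1]; norm_num)) fun m₃ hm₃ => ?_
  obtain ⟨hw3, m₄, hm₄, hw4, hc4⟩ := h2 m₃ hm₃
  have hn2 := after_nonneg hn1 hm₃
  have hs2 := sum_after hm₃
  refine can_own (not_covered_of_sum hn2 (by rw [hs2, hs1, hw3]; norm_num)) hm₄ ?_
  refine can_covered hc4 m₄ ?_
  rw [hw, hw3]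
  linarith

/-- the vertices at which Staller may play an integer move after the integer move at `x` -/
lemma exists_good {v : Fin 8} (h : ∃ E ∈ H₀.edges, v ∈ E ∧ load (fun u => if u = 5 then 1 else 0) E < 1) :
    ∃ v', GoodReply (pos v) v' := by
  have key : v ≠ 5 ∧ v ≠ 6 ∧ v ≠ 7 := by
    obtain ⟨E, hE, hv, hl⟩ := h
    have h5 : (5 : Fin 8) ∉ E := by
      intro h5
      have : load (fun u => if u = 5 then (1 : ℝ) else 0) E = 1 := by
        refine load_eq_one ?_
        rw [Finset.sum_ite_eq']
        simp [h5]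
      linarith
    unfold H₀ at hE
    simp only [Finset.mem_insert, Finset.mem_singleton] at hE
    rcases hE with rfl | rfl | rfl | rfl | rfl | rfl | rfl | rfl <;> revert hv h5 <;> decide +revert
  obtain ⟨k5, k6, k7⟩ := key
  fin_cases v
  · exact ⟨_, good0⟩
  · exact ⟨_, good1⟩
  · exact ⟨_, good2⟩
  · exact ⟨_, good3⟩
  · exact ⟨_, good4⟩
  · exact absurd rfl k5
  · exact absurd rfl k6
  · exact absurd rfl k7

end Pool.Agent.R185.FracTrans
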