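import Mathlib

set_option autoImplicit false
set_option linter.unusedVariables false

namespace Pool.Agent.R185.SymCol

open Classical

/-- an infinite family of points with a symmetric choice of midpoints -/
structure MidSys (G : Type*) [Group G] where
  x : ℕ → G
  inj : Function.Injective x
  M : ℕ → ℕ → G
  symm : ∀ i j, M i j = M j i
  diag : ∀ i, M i i = x i
  mid : ∀ i j, M i j * (x i)⁻¹ * M i j = x j

variable {G : Type*} [Group G]

theorem MidSys.M_inj (S : MidSys G) (c : ℕ) : Function.Injective (S.M c) := by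
  intro s t h
  apply S.inj
  rw [← S.mid c s, ← S.mid c t, h]

theorem MidSys.M_inj' (S : MidSys G) (t : ℕ) : Function.Injective (fun c => S.M c t) := by
  intro c c' h
  apply S.M_inj t
  have := h
  simp only at this
  rw [S.symm t c, S.symm t c']
  exact this

/-- no two different midpoints with quotient in `T` -/
def Good (S : MidSys G) (T : Finset G) (F : Finset ℕ) : Prop :=
  ∀ a ∈ F, ∀ b ∈ F, ∀ c ∈ F, ∀ d ∈ F, S.M a b * (S.M c d)⁻¹ ∈ T → S.M a b = S.M c d

theorem fin_val (S : MidSys G) (c : ℕ) (g : G) : {t | S.M c t = g}.Finite := by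
  apply Set.Subsingleton.finite
  intro s hs t ht
  exact S.M_inj c (hs.trans ht.symm)

theorem fin_x (S : MidSys G) (g : G) : {t | S.x t = g}.Finite := by
  apply Set.Subsingleton.finite
  intro s hs t ht
  exact S.inj (hs.trans ht.symm)

theorem fin_b1 (S : MidSys G) (c : ℕ) (g : G) : {t | S.x t * (S.M c t)⁻¹ = g}.Finite := by
  apply (fin_val S c (g * S.x c)).subset
  intro t ht
  simp only [Set.mem_ofPred_eq] at ht ⊢
  rw [← ht]
  have := S.mid c t
  rw [← this]
  group

theorem fin_b2 (S : MidSys G) (c : ℕ) (g : G) : {t | S.M c t * (S.x t)⁻¹ = g}.Finite := by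
  apply (fin_val S c (g⁻¹ * S.x c)).subset
  intro t ht
  simp only [Set.mem_ofPred_eq] at ht ⊢
  rw [← ht]
  have := S.mid c t
  rw [← this]
  group

/-- the finite set of forbidden new indices -/
def Bad (S : MidSys G) (T : Finset G) (F : Finset ℕ) : Set ℕ :=
  (F : Set ℕ) ∪
  (⋃ a ∈ F, ⋃ b ∈ F, ⋃ c ∈ F, ⋃ τ ∈ T, ({t | S.M c t = τ⁻¹ * S.M a b} ∪ {t | S.M c t = τ * S.M a b})) ∪
  (⋃ a ∈ F, ⋃ b ∈ F, ⋃ τ ∈ T, ({t | S.x t = τ⁻¹ * S.M a b} ∪ {t | S.x t = τ * S.M a b})) ∪
  (⋃ c ∈ F, ⋃ τ ∈ T, ({t | S.x t * (S.M c t)⁻¹ = τ} ∪ {t | S.M c t * (S.x t)⁻¹ = τ}))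

theorem bad_finite (S : MidSys G) (T : Finset G) (F : Finset ℕ) : (Bad S T F).Finite := by
  unfold Bad
  refine Set.Finite.union (Set.Finite.union (Set.Finite.union F.finite_toSet ?_) ?_) ?_
  · refine F.finite_toSet.biUnion fun a _ => F.finite_toSet.biUnion fun b _ =>
      F.finite_toSet.biUnion fun c _ => T.finite_toSet.biUnion fun τ _ =>
      (fin_val S c _).union (fin_val S c _)
  · refine F.finite_toSet.biUnion fun a _ => F.finite_toSet.biUnion fun b _ =>
      T.finite_toSet.biUnion fun τ _ => (fin_x S _).union (fin_x S _)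
  · refine F.finite_toSet.biUnion fun c _ => T.finite_toSet.biUnion fun τ _ =>
      (fin_b1 S c _).union (fin_b2 S c _)

/-- consequences of `t ∉ Bad` -/
theorem not_bad (S : MidSys G) (T : Finset G) (F : Finset ℕ) (t : ℕ) (ht : t ∉ Bad S T F) :
    t ∉ F ∧ (∀ a ∈ F, ∀ b ∈ F, ∀ c ∈ F, S.M a b * (S.M c t)⁻¹ ∉ T ∧ S.M c t * (S.M a b)⁻¹ ∉ T) ∧
    (∀ a ∈ F, ∀ b ∈ F, S.M a b * (S.x t)⁻¹ ∉ T ∧ S.x t * (S.M a b)⁻¹ ∉ T) ∧
    (∀ c ∈ F, S.x t * (S.M c t)⁻¹ ∉ T ∧ S.M c t * (S.x t)⁻¹ ∉ T) := by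
  unfold Bad at ht
  simp only [Set.mem_union, not_or, Set.mem_iUnion, not_exists, Finset.mem_coe, Set.mem_ofPred_eq,
    exists_prop, not_and] at ht
  obtain ⟨⟨⟨h1, h2⟩, h3⟩, h4⟩ := ht
  refine ⟨h1, ?_, ?_, ?_⟩
  · intro a ha b hb c hc
    constructor
    · intro h
      have := (h2 a ha b hb c hc _ h).1
      apply this; group
    · intro h
      have := (h2 a ha b hb c hc _ h).2
      apply this; group
  · intro a ha b hb
    constructor
    · intro h
      have := (h3 a ha b hb _ h).1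
      apply this; group
    · intro h
      have := (h3 a ha b hb _ h).2
      apply this; group
  · intro c hc
    constructor
    · intro h
      exact (h4 c hc _ h).1 rfl
    · intro h
      exact (h4 c hc _ h).2 rfl

/-- the key assembling step -/
theorem good_step (S : MidSys G) (T : Finset G) (F : Finset ℕ) (n t : ℕ)
    (hn : Good S T (insert n F)) (ht : Good S T (insert t F))
    (hb : t ∉ Bad S T (insert n F))
    (hm : ∀ a ∈ F, S.M a t * (S.M n t)⁻¹ ∉ T ∧ S.M n t * (S.M a t)⁻¹ ∉ T) :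
    Good S T (insert t (insert n F)) := by
  obtain ⟨h0, h1, h2, h3⟩ := not_bad S T _ t hb
  -- kinds of midpoints
  have kind : ∀ a ∈ insert t (insert n F), ∀ b ∈ insert t (insert n F),
      (a ∈ insert n F ∧ b ∈ insert n F) ∨ (∃ c ∈ insert n F, S.M a b = S.M c t) ∨
      S.M a b = S.x t := by
    intro a ha b hb
    rw [Finset.mem_insert] at ha hb
    rcases ha with ha | ha <;> rcases hb with hb | hb
    · right; right; rw [ha, hb, S.diag]
    · right; left; exact ⟨b, hb, by rw [ha, S.symm]⟩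
    · right; left; exact ⟨a, ha, by rw [hb]⟩
    · left; exact ⟨ha, hb⟩
  intro a ha b hb c hc d hd hT
  rcases kind a ha b hb with ⟨ha', hb'⟩ | ⟨p, hp, ep⟩ | ep <;>
  rcases kind c hc d hd with ⟨hc', hd'⟩ | ⟨q, hq, eq⟩ | eq
  · exact hn a ha' b hb' c hc' d hd' hT
  · rw [eq] at hT
    exact absurd hT (h1 a ha' b hb' q hq).1
  · rw [eq] at hT
    exact absurd hT (h2 a ha' b hb').1
  · rw [ep] at hT
    exact absurd hT (h1 c hc' d hd' p hp).2
  · rw [ep, eq] at hT ⊢
    rw [Finset.mem_insert] at hp hq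
    rcases hp with hp | hp <;> rcases hq with hq | hq
    · rw [hp, hq]
    · rw [hp] at hT
      exact absurd hT (hm q hq).2
    · rw [hq] at hT
      exact absurd hT (hm p hp).1
    · exact ht p (Finset.mem_insert_of_mem hp) t (Finset.mem_insert_self _ _)
        q (Finset.mem_insert_of_mem hq) t (Finset.mem_insert_self _ _) hT
  · rw [ep, eq] at hT
    exact absurd hT (h3 p hp).2
  · rw [ep] at hT
    exact absurd hT (h2 c hc' d hd').2
  · rw [ep, eq] at hT
    exact absurd hT (h3 q hq).1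
  · rw [ep, eq]

theorem exists_move (S : MidSys G) (T : Finset G) (F N : Finset ℕ) (t : ℕ)
    (hN : (F ×ˢ (T ×ˢ (Finset.univ : Finset Bool))).card < N.card) :
    ∃ n ∈ N, ∀ a ∈ F, S.M a t * (S.M n t)⁻¹ ∉ T ∧ S.M n t * (S.M a t)⁻¹ ∉ T := by
  by_contra hcon
  push Not at hcon
  have h : ∀ n ∈ N, ∃ z : ℕ × (G × Bool), z ∈ F ×ˢ (T ×ˢ (Finset.univ : Finset Bool)) ∧
      S.M n t = (if z.2.2 then z.2.1 else z.2.1⁻¹) * S.M z.1 t := by
    intro n hn
    obtain ⟨a, ha, h⟩ := hcon n hn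
    by_cases h1 : S.M a t * (S.M n t)⁻¹ ∈ T
    · refine ⟨(a, S.M a t * (S.M n t)⁻¹, false), ?_, ?_⟩
      · simp [ha, h1]
      · simp
    · refine ⟨(a, S.M n t * (S.M a t)⁻¹, true), ?_, ?_⟩
      · simp [ha, h h1]
      · simp
  choose! f hf1 hf2 using h
  obtain ⟨n, hn, n', hn', hne, he⟩ :=
    Finset.exists_ne_map_eq_of_card_lt_of_maps_to hN (f := f) (fun n hn => hf1 n hn)
  apply hne
  apply S.M_inj' t
  simp only
  rw [hf2 n hn, hf2 n' hn', he]

theorem reservoir (S : MidSys G) (T : Finset G) (R : ℕ) :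
    ∃ (F : Finset ℕ) (X : Set ℕ), F.card = R ∧ X.Infinite ∧ ∀ t ∈ X, t ∉ F ∧ Good S T (insert t F) := by
  induction R with
  | zero =>
    refine ⟨∅, Set.univ, rfl, Set.infinite_univ, ?_⟩
    intro t _
    refine ⟨by simp, ?_⟩
    intro a ha b hb c hc d hd _
    simp only [insert_empty_eq, Finset.mem_singleton] at ha hb hc hd
    rw [ha, hb, hc, hd]
  | succ R ih =>
    obtain ⟨F, X, hF, hX, hgood⟩ := ih
    obtain ⟨N, hNX, hNc⟩ := hX.exists_subset_card_eq ((F ×ˢ (T ×ˢ (Finset.univ : Finset Bool))).card + 1)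
    have hBfin : (⋃ n ∈ N, Bad S T (insert n F)).Finite :=
      N.finite_toSet.biUnion fun n _ => bad_finite S T _
    have hY : (X \ ⋃ n ∈ N, Bad S T (insert n F)).Infinite := hX.sdiff hBfin
    -- some candidate works infinitely often
    have hcov : (X \ ⋃ n ∈ N, Bad S T (insert n F)) ⊆
        ⋃ n ∈ N, {t | t ∈ (X \ ⋃ n ∈ N, Bad S T (insert n F)) ∧
          ∀ a ∈ F, S.M a t * (S.M n t)⁻¹ ∉ T ∧ S.M n t * (S.M a t)⁻¹ ∉ T} := by
      intro t ht
      obtain ⟨n, hn, h⟩ := exists_move S T F N t (by omega)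
      simp only [Set.mem_iUnion]
      exact ⟨n, hn, ht, h⟩
    have : ∃ n ∈ N, {t | t ∈ (X \ ⋃ n ∈ N, Bad S T (insert n F)) ∧
          ∀ a ∈ F, S.M a t * (S.M n t)⁻¹ ∉ T ∧ S.M n t * (S.M a t)⁻¹ ∉ T}.Infinite := by
      by_contra hno
      push Not at hno
      apply hY
      refine Set.Finite.subset (N.finite_toSet.biUnion fun n hn => ?_) hcov
      exact hno n hn
    obtain ⟨n, hn, hinf⟩ := this
    have hnX : n ∈ X := hNX hn
    refine ⟨insert n F, _, ?_, hinf, ?_⟩
    · rw [Finset.card_insert_of_notMem (hgood n hnX).1, hF]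
    · rintro t ⟨⟨htX, htB⟩, hm⟩
      have hb : t ∉ Bad S T (insert n F) := by
        intro h
        apply htB
        simp only [Set.mem_iUnion]
        exact ⟨n, hn, h⟩
      refine ⟨(not_bad S T _ t hb).1, ?_⟩
      exact good_step S T F n t (hgood n hnX).2 (hgood t htX).2 hb hm

theorem exists_good (S : MidSys G) (T : Finset G) (R : ℕ) :
    ∃ F : Finset ℕ, F.card = R ∧ Good S T F := by
  obtain ⟨F, X, hF, hX, h⟩ := reservoir S T R
  obtain ⟨t, ht⟩ := hX.nonempty
  refine ⟨F, hF, ?_⟩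
  intro a ha b hb c hc d hd hT
  exact (h t ht).2 a (Finset.mem_insert_of_mem ha) b (Finset.mem_insert_of_mem hb)
    c (Finset.mem_insert_of_mem hc) d (Finset.mem_insert_of_mem hd) hT

/-- pairs `(g, x)`, both in `P`, with `g x⁻¹ g` in `P`, different from `x` and of the colour of `x` -/
noncomputable def NN {κ : Type*} (χ : G → κ) (P : Finset G) : Finset (G × G) :=
  (P ×ˢ P).filter (fun z => z.1 * z.2⁻¹ * z.1 ∈ P ∧ z.1 * z.2⁻¹ * z.1 ≠ z.2 ∧
    χ (z.1 * z.2⁻¹ * z.1) = χ z.2)

theorem mem_NN {κ : Type*} (χ : G → κ) (P : Finset G) (g x : G) :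
    (g, x) ∈ NN χ P ↔ g ∈ P ∧ x ∈ P ∧ g * x⁻¹ * g ∈ P ∧ g * x⁻¹ * g ≠ x ∧
      χ (g * x⁻¹ * g) = χ x := by
  unfold NN
  simp only [Finset.mem_filter, Finset.mem_product]
  tauto

theorem cube (S : MidSys G) (r : ℕ) (d : ℕ) :
    ∃ P : Finset G, P.Nonempty ∧ ∀ χ : G → Fin r, d * P.card ≤ (r + 1) ^ 2 * (NN χ P).card := by
  induction d with
  | zero => exact ⟨{1}, by simp, fun χ => by simp⟩
  | succ d ih =>
    obtain ⟨P, hP, hN⟩ := ih
    set T : Finset G := (P ×ˢ P).image (fun z => z.1⁻¹ * z.2) with hT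
    obtain ⟨F, hFc, hF⟩ := exists_good S T (r + 1)
    set Q : Finset G := (F ×ˢ F).image (fun z => S.M z.1 z.2) with hQ
    have hQc : Q.card ≤ (r + 1) ^ 2 := by
      rw [hQ]
      refine Finset.card_image_le.trans ?_
      rw [Finset.card_product, hFc, pow_two]
    have hxQ : ∀ a ∈ F, S.x a ∈ Q := by
      intro a ha
      rw [hQ, Finset.mem_image]
      exact ⟨(a, a), by simp [ha], S.diag a⟩
    have hMQ : ∀ a ∈ F, ∀ b ∈ F, S.M a b ∈ Q := by
      intro a ha b hb
      rw [hQ, Finset.mem_image]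
      exact ⟨(a, b), by simp [ha, hb], rfl⟩
    have hinj : ∀ p ∈ P, ∀ q ∈ Q, ∀ p' ∈ P, ∀ q' ∈ Q, p * q = p' * q' → p = p' ∧ q = q' := by
      intro p hp q hq p' hp' q' hq' he
      have hqq : q' = q := by
        rw [hQ, Finset.mem_image] at hq hq'
        obtain ⟨⟨a, b⟩, hab, e1⟩ := hq
        obtain ⟨⟨c, d⟩, hcd, e2⟩ := hq'
        rw [Finset.mem_product] at hab hcd
        simp only at e1 e2 hab hcd
        rw [← e1, ← e2]
        apply hF c hcd.1 d hcd.2 a hab.1 b hab.2
        rw [hT, Finset.mem_image]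
        refine ⟨(p', p), by simp [hp, hp'], ?_⟩
        simp only
        rw [e1, e2]
        rw [inv_mul_eq_iff_eq_mul, ← mul_assoc, ← he]
        group
      refine ⟨?_, hqq.symm⟩
      rw [hqq] at he
      exact mul_right_cancel he
    set P' : Finset G := (P ×ˢ Q).image (fun z => z.1 * z.2) with hP'
    have hmem : ∀ p ∈ P, ∀ q ∈ Q, p * q ∈ P' := by
      intro p hp q hq
      rw [hP', Finset.mem_image]
      exact ⟨(p, q), by simp [hp, hq], rfl⟩
    have hP'c : P'.card = P.card * Q.card := by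
      rw [hP', Finset.card_image_of_injOn, Finset.card_product]
      rintro ⟨p, q⟩ hpq ⟨p', q'⟩ hpq' he
      simp only [Finset.coe_product, Set.mem_prod, Finset.mem_coe] at hpq hpq' he
      obtain ⟨h1, h2⟩ := hinj p hpq.1 q hpq.2 p' hpq'.1 q' hpq'.2 he
      rw [h1, h2]
    have hFne : F.Nonempty := by
      rw [← Finset.card_pos, hFc]; omega
    obtain ⟨a0, ha0⟩ := hFne
    refine ⟨P', ?_, ?_⟩
    · obtain ⟨p, hp⟩ := hP
      exact ⟨_, hmem p hp _ (hxQ a0 ha0)⟩
    intro χ
    -- old pairs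
    set A : Finset (G × G) := Q.biUnion (fun q => (NN (fun x => χ (x * q)) P).image
      (fun z => (z.1 * q, z.2 * q))) with hA
    have hAc : A.card = ∑ q ∈ Q, (NN (fun x => χ (x * q)) P).card := by
      rw [hA, Finset.card_biUnion]
      · apply Finset.sum_congr rfl
        intro q hq
        apply Finset.card_image_of_injective
        rintro ⟨g, x⟩ ⟨g', x'⟩ he
        simp only [Prod.mk.injEq, mul_left_inj] at he
        rw [he.1, he.2]
      · intro q hq q' hq' hne
        rw [Function.onFun, Finset.disjoint_left]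
        rintro ⟨u, v⟩ h1 h2
        rw [Finset.mem_image] at h1 h2
        obtain ⟨⟨g, x⟩, hz, e1⟩ := h1
        obtain ⟨⟨g', x'⟩, hz', e2⟩ := h2
        rw [mem_NN] at hz hz'
        simp only [Prod.mk.injEq] at e1 e2
        apply hne
        exact (hinj g hz.1 q hq g' hz'.1 q' hq' (e1.1.trans e2.1.symm)).2
    have hAsub : A ⊆ NN χ P' := by
      intro w hw
      rw [hA, Finset.mem_biUnion] at hw
      obtain ⟨q, hq, hw⟩ := hw
      rw [Finset.mem_image] at hw
      obtain ⟨⟨g, x⟩, hz, e1⟩ := hw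
      rw [mem_NN] at hz
      obtain ⟨hg, hx, hy, hne, hc⟩ := hz
      rw [← e1]
      simp only
      rw [mem_NN]
      have key : g * q * (x * q)⁻¹ * (g * q) = g * x⁻¹ * g * q := by group
      rw [key]
      exact ⟨hmem g hg q hq, hmem x hx q hq, hmem _ hy q hq, fun h => hne (mul_right_cancel h), hc⟩
    -- new pairs
    have hnew : ∀ p ∈ P, ∃ z : ℕ × ℕ, z.1 ∈ F ∧ z.2 ∈ F ∧ z.1 ≠ z.2 ∧
        χ (p * S.x z.1) = χ (p * S.x z.2) := by
      intro p hp
      obtain ⟨a, ha, b, hb, hab, he⟩ := Finset.exists_ne_map_eq_of_card_lt_of_maps_to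
        (s := F) (t := (Finset.univ : Finset (Fin r))) (f := fun a => χ (p * S.x a))
        (by simp [hFc]) (fun a _ => by simp)
      exact ⟨(a, b), ha, hb, hab, he⟩
    choose! f hf1 hf2 hf3 hf4 using hnew
    set B : Finset (G × G) := P.image (fun p => (p * S.M (f p).1 (f p).2, p * S.x (f p).1)) with hB
    have hBc : B.card = P.card := by
      rw [hB]
      apply Finset.card_image_of_injOn
      intro p hp p' hp' he
      simp only [Prod.mk.injEq] at he
      exact (hinj p hp _ (hxQ _ (hf1 p hp)) p' hp' _ (hxQ _ (hf1 p' hp')) he.2).1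
    have hBmid : ∀ p ∈ P, p * S.M (f p).1 (f p).2 * (p * S.x (f p).1)⁻¹ *
        (p * S.M (f p).1 (f p).2) = p * S.x (f p).2 := by
      intro p hp
      rw [← S.mid (f p).1 (f p).2]
      group
    have hBsub : B ⊆ NN χ P' := by
      intro w hw
      rw [hB, Finset.mem_image] at hw
      obtain ⟨p, hp, e⟩ := hw
      rw [← e, mem_NN, hBmid p hp]
      refine ⟨hmem p hp _ (hMQ _ (hf1 p hp) _ (hf2 p hp)), hmem p hp _ (hxQ _ (hf1 p hp)),
        hmem p hp _ (hxQ _ (hf2 p hp)), ?_, (hf4 p hp).symm⟩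
      intro h
      exact hf3 p hp (S.inj (mul_left_cancel h)).symm
    have hdis : Disjoint A B := by
      rw [Finset.disjoint_left]
      intro w hw1 hw2
      rw [hA, Finset.mem_biUnion] at hw1
      obtain ⟨q, hq, hw1⟩ := hw1
      rw [Finset.mem_image] at hw1
      obtain ⟨⟨g, x⟩, hz, e1⟩ := hw1
      rw [mem_NN] at hz
      obtain ⟨hg, hx, hy, hne, hc⟩ := hz
      rw [hB, Finset.mem_image] at hw2
      obtain ⟨p, hp, e2⟩ := hw2
      have e3 := e1.trans e2.symm
      simp only [Prod.mk.injEq] at e3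
      have h1 := hBmid p hp
      rw [← e3.1, ← e3.2] at h1
      have key : g * q * (x * q)⁻¹ * (g * q) = g * x⁻¹ * g * q := by group
      rw [key] at h1
      have h2 := (hinj _ hy q hq p hp _ (hxQ _ (hf2 p hp)) h1).2
      have h3 := (hinj _ hx q hq p hp _ (hxQ _ (hf1 p hp)) e3.2).2
      exact hf3 p hp (S.inj (h3.symm.trans h2))
    have hcard : A.card + B.card ≤ (NN χ P').card := by
      rw [← Finset.card_union_of_disjoint hdis]
      exact Finset.card_le_card (Finset.union_subset hAsub hBsub)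
    have hsum : Q.card * (d * P.card) ≤ (r + 1) ^ 2 * A.card := by
      rw [hAc, Finset.mul_sum, ← smul_eq_mul]
      apply Finset.card_nsmul_le_sum
      intro q _
      exact hN _
    rw [hP'c]
    calc (d + 1) * (P.card * Q.card) = Q.card * (d * P.card) + Q.card * P.card := by ring
      _ ≤ (r + 1) ^ 2 * A.card + (r + 1) ^ 2 * P.card :=
          Nat.add_le_add hsum (Nat.mul_le_mul_right _ hQc)
      _ = (r + 1) ^ 2 * (A.card + B.card) := by rw [hBc]; ring
      _ ≤ _ := Nat.mul_le_mul_left _ hcard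

theorem of_midSys (S : MidSys G) (r : ℕ) (χ : G → Fin r) (n : ℕ) :
    ∃ (A : Finset G) (g : G), n ≤ A.card ∧ (∀ a ∈ A, ∀ b ∈ A, χ a = χ b) ∧
      (A : Set G) = (fun x => g * x⁻¹ * g) '' (A : Set G) := by
  obtain ⟨P, hP, h⟩ := cube S r ((r + 1) ^ 2 * (r * n))
  have h1 := h χ
  have h2 : P.card * (r * n) ≤ (NN χ P).card := by
    have h3 : (r + 1) ^ 2 * (P.card * (r * n)) ≤ (r + 1) ^ 2 * (NN χ P).card := by
      calc (r + 1) ^ 2 * (P.card * (r * n)) = (r + 1) ^ 2 * (r * n) * P.card := by ring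
        _ ≤ _ := h1
    exact Nat.le_of_mul_le_mul_left h3 (by positivity)
  obtain ⟨g, hg, h4⟩ := Finset.exists_le_card_fiber_of_mul_le_card_of_maps_to
    (s := NN χ P) (t := P) (f := Prod.fst)
    (fun z hz => by
      obtain ⟨g, x⟩ := z
      exact ((mem_NN χ P g x).1 hz).1) hP h2
  have hr : (Finset.univ : Finset (Fin r)).Nonempty := ⟨χ 1, Finset.mem_univ _⟩
  obtain ⟨c, hc, h5⟩ := Finset.exists_le_card_fiber_of_mul_le_card_of_maps_to
    (s := (NN χ P).filter (fun z => z.1 = g)) (t := (Finset.univ : Finset (Fin r)))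
    (f := fun z => χ z.2) (fun z hz => Finset.mem_univ _) hr (by simpa using h4)
  set A : Finset G := P.filter (fun x => g * x⁻¹ * g ∈ P ∧ g * x⁻¹ * g ≠ x ∧
    χ (g * x⁻¹ * g) = χ x ∧ χ x = c) with hA
  have hinv : ∀ x : G, g * (g * x⁻¹ * g)⁻¹ * g = x := by intro x; group
  have hAm : ∀ x ∈ A, g * x⁻¹ * g ∈ A := by
    intro x hx
    rw [hA, Finset.mem_filter] at hx ⊢
    obtain ⟨h1, h2, h3, h4, h5⟩ := hx
    rw [hinv x]
    exact ⟨h2, h1, h3.symm, h4.symm, h4.trans h5⟩
  refine ⟨A, g, ?_, ?_, ?_⟩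
  · refine h5.trans ?_
    apply Finset.card_le_card_of_injOn Prod.snd
    · rintro ⟨u, x⟩ hz
      simp only [Finset.coe_filter, Finset.mem_filter, Set.mem_ofPred_eq] at hz
      obtain ⟨⟨hz, hu⟩, hcx⟩ := hz
      rw [mem_NN, hu] at hz
      obtain ⟨k1, k2, k3, k4, k5⟩ := hz
      rw [Finset.mem_coe, hA, Finset.mem_filter]
      exact ⟨k2, k3, k4, k5, hcx⟩
    · rintro ⟨u, x⟩ hz ⟨u', x'⟩ hz' he
      simp only [Finset.coe_filter, Finset.mem_filter, Set.mem_ofPred_eq] at hz hz' he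
      rw [hz.1.2, hz'.1.2, he]
  · intro a ha b hb
    rw [hA, Finset.mem_filter] at ha hb
    rw [ha.2.2.2.2, hb.2.2.2.2]
  · ext y
    simp only [Finset.mem_coe, Set.mem_image]
    constructor
    · intro hy
      exact ⟨g * y⁻¹ * g, hAm y hy, hinv y⟩
    · rintro ⟨x, hx, rfl⟩
      exact hAm x hx

/-- an infinite set all of whose quotients are squares gives a system of midpoints -/
theorem midSys_of_squares (X : Set G) (hX : X.Infinite)
    (h : ∀ x ∈ X, ∀ y ∈ X, ∃ s : G, x⁻¹ * y = s * s) : Nonempty (MidSys G) := by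
  set x : ℕ → G := fun i => (hX.natEmbedding X i : G) with hx
  have hxinj : Function.Injective x := by
    intro i j hij
    exact (hX.natEmbedding X).injective (Subtype.ext hij)
  have hxm : ∀ i, x i ∈ X := fun i => (hX.natEmbedding X i).2
  have hs : ∀ i j, ∃ s : G, (x i)⁻¹ * x j = s * s := fun i j => h _ (hxm i) _ (hxm j)
  choose s hs using hs
  have hlt : ∀ i j, (x i * s i j) * (x i)⁻¹ * (x i * s i j) = x j := by
    intro i j
    have : (x i * s i j) * (x i)⁻¹ * (x i * s i j) = x i * (s i j * s i j) := by group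
    rw [this, ← hs i j]
    group
  refine ⟨⟨x, hxinj, fun i j => if i = j then x i else if i < j then x i * s i j else x j * s j i,
    ?_, ?_, ?_⟩⟩
  · intro i j
    rcases lt_trichotomy i j with hij | hij | hij
    · simp [hij, hij.ne, hij.ne', hij.not_gt]
    · simp [hij]
    · simp [hij, hij.ne, hij.ne', hij.not_gt]
  · intro i
    simp
  · intro i j
    rcases lt_trichotomy i j with hij | hij | hij
    · simp only [hij, hij.ne, if_false, if_true]
      exact hlt i j
    · simp [hij]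
    · simp only [hij.ne', hij.not_gt, if_false]
      have h1 := hlt j i
      set m := x j * s j i
      have : x i = m * (x j)⁻¹ * m := h1.symm
      rw [this]
      group

theorem of_squares (X : Set G) (hX : X.Infinite)
    (h : ∀ x ∈ X, ∀ y ∈ X, ∃ s : G, x⁻¹ * y = s * s) (r : ℕ) (χ : G → Fin r) (n : ℕ) :
    ∃ (A : Finset G) (g : G), n ≤ A.card ∧ (∀ a ∈ A, ∀ b ∈ A, χ a = χ b) ∧
      (A : Set G) = (fun x => g * x⁻¹ * g) '' (A : Set G) := by
  obtain ⟨S⟩ := midSys_of_squares X hX h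
  exact of_midSys S r χ n

/-- an infinite subgroup without elements of order two contains such a set -/
theorem squares_of_subgroup (H : Subgroup G) (hH : (H : Set G).Infinite)
    (h2 : ∀ g ∈ H, g * g = 1 → g = 1) :
    ∃ X : Set G, X.Infinite ∧ ∀ x ∈ X, ∀ y ∈ X, ∃ s : G, x⁻¹ * y = s * s := by
  by_cases hT : ∀ a ∈ H, IsOfFinOrder a
  · refine ⟨H, hH, ?_⟩
    intro x hx y hy
    have hz : x⁻¹ * y ∈ H := H.mul_mem (H.inv_mem hx) hy
    set z := x⁻¹ * y with hzdef
    have hfin := hT z hz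
    have hodd : Odd (orderOf z) := by
      rw [← Nat.not_even_iff_odd]
      intro hev
      obtain ⟨m, hm⟩ := hev
      have hpos := hfin.orderOf_pos
      have h1 : z ^ m * z ^ m = 1 := by
        rw [← pow_add, ← hm, pow_orderOf_eq_one]
      have h3 := h2 _ (H.pow_mem hz m) h1
      have h4 := orderOf_dvd_of_pow_eq_one h3
      have h5 := Nat.le_of_dvd (by omega) h4
      omega
    obtain ⟨m, hm⟩ := hodd
    refine ⟨z ^ (m + 1), ?_⟩
    rw [← pow_add]
    have : m + 1 + (m + 1) = orderOf z + 1 := by omega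
    rw [this, pow_succ, pow_orderOf_eq_one, one_mul]
  · push Not at hT
    obtain ⟨a, ha, hinf⟩ := hT
    have hinj : Function.Injective (fun n : ℕ => a ^ n) := by
      exact injective_pow_iff_not_isOfFinOrder.2 hinf
    refine ⟨Set.range (fun n : ℕ => a ^ (2 * n)), ?_, ?_⟩
    · apply Set.infinite_range_of_injective
      intro i j hij
      have := hinj hij
      omega
    · rintro _ ⟨i, rfl⟩ _ ⟨j, rfl⟩
      refine ⟨a ^ ((j : ℤ) - (i : ℤ)), ?_⟩
      simp only
      rw [← zpow_natCast, ← zpow_natCast, ← zpow_neg, ← zpow_add, ← zpow_add]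
      congr 1
      push_cast
      ring

/-- infinitely many elements with square one -/
theorem of_involutions (hinf : {g : G | g * g = 1}.Infinite) (r : ℕ) (χ : G → Fin r) (n : ℕ) :
    ∃ (A : Finset G) (g : G), n ≤ A.card ∧ (∀ a ∈ A, ∀ b ∈ A, χ a = χ b) ∧
      (A : Set G) = (fun x => g * x⁻¹ * g) '' (A : Set G) := by
  have hcov : {g : G | g * g = 1} ⊆ ⋃ c ∈ (Finset.univ : Finset (Fin r)),
      {g : G | g * g = 1 ∧ χ g = c} := by
    intro g hg
    simp only [Set.mem_iUnion]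
    exact ⟨χ g, Finset.mem_univ _, hg, rfl⟩
  have hex : ∃ c : Fin r, {g : G | g * g = 1 ∧ χ g = c}.Infinite := by
    by_contra hno
    push Not at hno
    apply hinf
    exact Set.Finite.subset ((Finset.univ : Finset (Fin r)).finite_toSet.biUnion
      fun c _ => hno c) hcov
  obtain ⟨c, hc⟩ := hex
  obtain ⟨A, hA, hAc⟩ := hc.exists_subset_card_eq n
  refine ⟨A, 1, hAc.ge, ?_, ?_⟩
  · intro a ha b hb
    rw [(hA ha).2, (hA hb).2]
  · ext y
    simp only [Finset.mem_coe, Set.mem_image, one_mul, mul_one]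
    have hself : ∀ x ∈ A, x⁻¹ = x := fun x hx => by
      have := (hA hx).1
      exact inv_eq_of_mul_eq_one_left this
    constructor
    · intro hy
      exact ⟨y, hy, hself y hy⟩
    · rintro ⟨x, hx, rfl⟩
      rw [hself x hx]
      exact hx

end Pool.Agent.R185.SymCol
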