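import Pool.Agent.H46R2.SY.GRID
import Pool.Agent.H46R2.SY.NEU
import Pool.Agent.H46R2.SY.FC
import Pool.Agent.H46R2.SY.INV
import Pool.Agent.H46R2.SY.SET
import Pool.Agent.R185.SymCol

/-!
# One pair suffices

The grid argument of `Pool.Agent.H46R2.SY.GRID` for finite sets of large chromatic number instead
of cliques.
-/

set_option autoImplicit false
set_option linter.unusedVariables false
open scoped Classical

namespace Pool.Agent.R185.SymEq

open Pool.Agent.H46R2.SY

/-- two points with a midpoint, the centraliser of the direction having infinite index -/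
def Rel {G : Type} [Group G] (x y : G) : Prop :=
  x ≠ y ∧ ∃ m : G, m * x⁻¹ * m = y ∧ (Subgroup.centralizer ({m⁻¹ * x} : Set G)).index = 0

/-- the grid argument for a finite set `S` every `k`-colouring of which has a one-coloured pair
with a midpoint -/
theorem grid' (hNEU : S_NEU) (G : Type) [Group G] (k n : ℕ) (c : G → Fin k) (S : Finset G)
    (hS : ∀ f : G → Fin k, ∃ x ∈ S, ∃ y ∈ S, Rel x y ∧ f x = f y) : SymAt k c n := by
  classical
  have hk : 0 < k := by
    rcases Nat.eq_zero_or_pos k with h | h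
    · subst h; exact (Fin.elim0 (c 1))
    · exact h
  have hmid : ∀ x ∈ S, ∀ y ∈ S, Rel x y → ∃ m : G, m * x⁻¹ * m = y ∧
      (Subgroup.centralizer ({m⁻¹ * x} : Set G)).index = 0 := fun x _ y _ h => h.2
  choose! mid hm1 hm2 using hmid
  -- midpoints, nontrivial elements, forbidden set
  set D : Finset G := S ∪ (S ×ˢ S).image (fun q => mid q.1 q.2) with hDdef
  set E : Finset G := ((S ×ˢ S).filter (fun q => Rel q.1 q.2)).image
    (fun q => (mid q.1 q.2)⁻¹ * q.1) with hEdef
  set F : Finset G := Finset.image₂ (fun d e => d * e * d⁻¹) D E with hFdef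
  have hSne : S.Nonempty := by
    obtain ⟨x, hx, -⟩ := hS (fun _ => ⟨0, hk⟩)
    exact ⟨x, hx⟩
  have hDne : D.Nonempty := by
    obtain ⟨s, hs⟩ := hSne
    exact ⟨s, Finset.mem_union_left _ hs⟩
  have hEfc : ∀ e ∈ E, (Subgroup.centralizer ({e} : Set G)).index = 0 := by
    intro e he
    rw [hEdef, Finset.mem_image] at he
    obtain ⟨q, hq, rfl⟩ := he
    rw [Finset.mem_filter, Finset.mem_product] at hq
    exact hm2 q.1 hq.1.1 q.2 hq.1.2 hq.2
  have hF : ∀ d ∈ D, ∀ e ∈ E, d * e * d⁻¹ ∈ F := by
    intro d hd e he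
    rw [hFdef]
    exact Finset.mem_image₂_of_mem hd he
  -- the choice of the separating elements
  have hpick0 : ∀ C : Finset G, ∃ a : G,
      (∀ c ∈ C, (Subgroup.centralizer ({c} : Set G)).index = 0) →
      ∀ c ∈ C, a⁻¹ * c * a ∉ F := by
    intro C
    by_cases hC : ∀ c ∈ C, (Subgroup.centralizer ({c} : Set G)).index = 0
    · obtain ⟨a, ha⟩ := hNEU G C F hC
      exact ⟨a, fun _ => ha⟩
    · exact ⟨1, fun h => absurd h hC⟩
  choose pick hpick using hpick0
  set a : ℕ → G := fun t => pick (gridC pick E D t) with ha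
  set M := k * n with hMdef
  set L := D.card * M with hLdef
  let ext : (Fin L → G) → ℕ → G := fun p t => if h : t < L then p ⟨t, h⟩ else 1
  have hext : ∀ (p : Fin L → G) (i : Fin L) (x : G),
      ext (Function.update p i x) = Function.update (ext p) i x := by
    intro p i x
    funext t
    by_cases hti : t = i
    · subst hti
      simp [ext]
    · rw [Function.update_of_ne hti]
      simp only [ext]
      split_ifs with h
      · have : (⟨t, h⟩ : Fin L) ≠ i := by
          intro hh; apply hti; rw [← hh]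
        rw [Function.update_of_ne this]
      · rfl
  let W : (Fin L → G) → G := fun p => gridW a (ext p) L
  let Good : (Fin L → G) → Fin L → Prop := fun p i =>
    ∃ x ∈ S, ∃ y ∈ S, Rel x y ∧ p i = mid x y ∧
      c (W (Function.update p i x)) = c (W (Function.update p i y))
  have hgood : ∀ p ∈ Fintype.piFinset (fun _ : Fin L => D), ∀ i,
      ∃ m ∈ D, Good (Function.update p i m) i := by
    intro p hp i
    obtain ⟨x, hx, y, hy, hxy, hc⟩ := hS (fun s => c (W (Function.update p i s)))
    refine ⟨mid x y, ?_, x, hx, y, hy, hxy, by simp, ?_⟩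
    · rw [hDdef]
      exact Finset.mem_union_right _ (Finset.mem_image.2 ⟨(x, y), by simp [hx, hy], rfl⟩)
    · simpa using hc
  obtain ⟨p, hp, hcardJ⟩ := grid_count D hDne M Good hgood
  set J := Finset.univ.filter (fun i => Good p i) with hJ
  have hJg : ∀ i ∈ J, Good p i := fun i hi => (Finset.mem_filter.1 hi).2
  choose! X hX Y hY hXY hpi hcol using hJg
  -- colours
  obtain ⟨col, -, hcol2⟩ := Finset.exists_le_card_fiber_of_mul_le_card_of_maps_to
    (s := J) (t := (Finset.univ : Finset (Fin k))) (n := n)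
    (f := fun i => c (W (Function.update p i (X i)))) (by simp)
    ⟨⟨0, hk⟩, Finset.mem_univ _⟩ (by
      rw [Finset.card_univ, Fintype.card_fin]
      refine hcardJ.trans (le_of_eq ?_)
      rw [hJ]
      congr 1
      ext i
      simp only [Finset.mem_filter])
  set J' := J.filter (fun i => c (W (Function.update p i (X i))) = col) with hJ'
  have hJ'J : ∀ i ∈ J', i ∈ J := fun i hi => (Finset.mem_filter.1 hi).1
  have hJ'c : ∀ i ∈ J', c (W (Function.update p i (X i))) = col :=
    fun i hi => (Finset.mem_filter.1 hi).2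
  set g : G := W p with hg
  let x' : Fin L → G := fun i => W (Function.update p i (X i))
  let y' : Fin L → G := fun i => W (Function.update p i (Y i))
  have hWupd : ∀ (i : Fin L) (x : G), W (Function.update p i x)
      = gridW a (ext p) i * x * (gridW a (ext p) i * p i)⁻¹ * g := by
    intro i x
    simp only [W, hg, hext]
    rw [gridW_update a (ext p) i x L i.2]
    simp [ext]
  have hsym : ∀ i ∈ J, g * (x' i)⁻¹ * g = y' i := by
    intro i hi
    simp only [x', y', hWupd]
    have h1 := hm1 (X i) (hX i hi) (Y i) (hY i hi) (hXY i hi)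
    rw [← hpi i hi] at h1
    rw [← h1]
    group
  have hsym' : ∀ i ∈ J, g * (y' i)⁻¹ * g = x' i := by
    intro i hi
    rw [← hsym i hi]; group
  have hdD : ∀ i < L, ext p i ∈ D := by
    intro i hi
    simp only [ext, dif_pos hi]
    exact (Fintype.mem_piFinset.1 hp) _
  have hxE : ∀ i ∈ J, (ext p i)⁻¹ * X i ∈ E := by
    intro i hi
    have : ext p i = p i := by simp [ext]
    rw [this, hpi i hi, hEdef, Finset.mem_image]
    exact ⟨(X i, Y i), by simp [hX i hi, hY i hi, hXY i hi], rfl⟩
  have hinj : Set.InjOn x' (J' : Set (Fin L)) := by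
    have key : ∀ i ∈ J, ∀ j ∈ J, i < j → x' i ≠ x' j := by
      intro i hi j hj hij
      have := grid_distinct pick E D F hF hEfc hpick (ext p) L hdD i j hij j.2 (X i) (X j)
        (hxE i hi) (hxE j hj)
      simp only [x', W, hext]
      exact this
    intro i hi j hj hxx
    rcases lt_trichotomy i j with h | h | h
    · exact absurd hxx (key i (hJ'J i hi) j (hJ'J j hj) h)
    · exact h
    · exact absurd hxx.symm (key j (hJ'J j hj) i (hJ'J i hi) h)
  refine ⟨J'.image x' ∪ J'.image y', g, ?_, ?_, ?_⟩
  · calc n ≤ J'.card := hcol2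
      _ = (J'.image x').card := (Finset.card_image_of_injOn hinj).symm
      _ ≤ _ := Finset.card_le_card Finset.subset_union_left
  · have hall : ∀ z ∈ J'.image x' ∪ J'.image y', c z = col := by
      intro z hz
      rw [Finset.mem_union, Finset.mem_image, Finset.mem_image] at hz
      rcases hz with ⟨i, hi, rfl⟩ | ⟨i, hi, rfl⟩
      · exact hJ'c i hi
      · rw [← hJ'c i hi]; exact (hcol i (hJ'J i hi)).symm
    intro u hu v hv
    rw [hall u hu, hall v hv]
  · ext z
    simp only [Finset.coe_union, Finset.coe_image, Set.mem_union, Set.mem_image]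
    constructor
    · rintro (⟨i, hi, rfl⟩ | ⟨i, hi, rfl⟩)
      · exact ⟨y' i, Or.inr ⟨i, hi, rfl⟩, hsym' i (hJ'J i hi)⟩
      · exact ⟨x' i, Or.inl ⟨i, hi, rfl⟩, hsym i (hJ'J i hi)⟩
    · rintro ⟨w, (⟨i, hi, rfl⟩ | ⟨i, hi, rfl⟩), rfl⟩
      · exact Or.inr ⟨i, hi, (hsym i (hJ'J i hi)).symm⟩
      · exact Or.inl ⟨i, hi, (hsym' i (hJ'J i hi)).symm⟩


end Pool.Agent.R185.SymEq
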