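import Pool.Agent.R185.SymEq

set_option autoImplicit false
set_option linter.unusedVariables false
open scoped Classical

namespace Pool.Agent.R185.SymEq

open Pool.Agent.H46R2.SY

/-- compactness for colourings with `k` colours -/
theorem compactness {V : Type} (R : V → V → Prop) (k : ℕ)
    (h : ∀ f : V → Fin k, ∃ x y, R x y ∧ f x = f y) :
    ∃ S : Finset V, ∀ f : V → Fin k, ∃ x ∈ S, ∃ y ∈ S, R x y ∧ f x = f y := by
  classical
  let t : {p : V × V // R p.1 p.2} → Set (V → Fin k) := fun p => {f | f p.1.1 ≠ f p.1.2}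
  have hclosed : ∀ p, IsClosed (t p) := by
    intro p
    have : t p = (fun f : V → Fin k => (f p.1.1, f p.1.2)) ⁻¹' {q | q.1 ≠ q.2} := rfl
    rw [this]
    exact (isClosed_discrete _).preimage (by fun_prop)
  have hempty : (Set.univ ∩ ⋂ p, t p) = ∅ := by
    rw [Set.eq_empty_iff_forall_notMem]
    intro f hf
    obtain ⟨x, y, hR, he⟩ := h f
    exact (Set.mem_iInter.1 hf.2 ⟨(x, y), hR⟩) he
  obtain ⟨u, hu⟩ := isCompact_univ.elim_finite_subfamily_closed t hclosed hempty
  refine ⟨u.image (fun p => p.1.1) ∪ u.image (fun p => p.1.2), fun f => ?_⟩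
  by_contra hcon
  have hf : f ∈ Set.univ ∩ ⋂ i ∈ u, t i := by
    refine ⟨Set.mem_univ _, ?_⟩
    simp only [Set.mem_iInter]
    intro p hp he
    apply hcon
    refine ⟨p.1.1, ?_, p.1.2, ?_, p.2, he⟩
    · exact Finset.mem_union_left _ (Finset.mem_image.2 ⟨p, hp, rfl⟩)
    · exact Finset.mem_union_right _ (Finset.mem_image.2 ⟨p, hp, rfl⟩)
  rw [hu] at hf
  exact hf

/-- an infinite set of commuting elements -/
theorem comm_case {G : Type} [Group G] (T : Set G) (hT : T.Infinite)
    (hcomm : ∀ x ∈ T, ∀ y ∈ T, x * y = y * x) : HasSym G := by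
  have hsq : ∀ a ∈ T, ∀ b ∈ T, (a * a)⁻¹ * (b * b) = (a⁻¹ * b) * (a⁻¹ * b) := by
    intro a ha b hb
    have h : Commute a b := hcomm a ha b hb
    have h' : a⁻¹ * b = b * a⁻¹ := h.inv_left
    calc (a * a)⁻¹ * (b * b) = a⁻¹ * (a⁻¹ * b) * b := by group
      _ = a⁻¹ * (b * a⁻¹) * b := by rw [h']
      _ = (a⁻¹ * b) * (a⁻¹ * b) := by group
  by_cases hX : ((fun a => a * a) '' T).Infinite
  · intro k c n
    refine Pool.Agent.R185.SymCol.of_squares _ hX ?_ k c n
    rintro _ ⟨a, ha, rfl⟩ _ ⟨b, hb, rfl⟩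
    exact ⟨a⁻¹ * b, hsq a ha b hb⟩
  · have hXf : ((fun a => a * a) '' T).Finite := Set.not_infinite.1 hX
    have hex : ∃ q ∈ ((fun a => a * a) '' T), {a | a ∈ T ∧ a * a = q}.Infinite := by
      by_contra hno
      push Not at hno
      apply hT
      refine Set.Finite.subset (hXf.biUnion fun q hq => (hno q hq)) ?_
      intro a ha
      simp only [Set.mem_iUnion]
      exact ⟨a * a, ⟨a, ha, rfl⟩, ha, rfl⟩
    obtain ⟨q, -, hq⟩ := hex
    obtain ⟨a0, ha0, hq0⟩ := hq.nonempty
    intro k c n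
    refine Pool.Agent.R185.SymCol.of_involutions ?_ k c n
    have := hq.image (f := fun a => a0⁻¹ * a) (fun a _ b _ hab => mul_left_cancel hab)
    refine this.mono ?_
    rintro _ ⟨a, ⟨ha, haq⟩, rfl⟩
    show (a0⁻¹ * a) * (a0⁻¹ * a) = 1
    rw [← hsq a0 ha0 a ha, haq, ← hq0]
    group

theorem fc_infinite {G : Type} [Group G] (F : Subgroup G)
    (hF : ∀ x : G, x ∈ F → (Subgroup.centralizer ({x} : Set G)).index ≠ 0)
    (hinf : (F : Set G).Infinite) : HasSym G := by
  haveI : Infinite F := hinf.to_subtype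
  obtain ⟨T, hT, hcomm⟩ := set_comm (G := F) (fun x => by
    have h1 : (Subgroup.centralizer ({(x : G)} : Set G)).FiniteIndex := ⟨hF x x.2⟩
    have h2 : ((Subgroup.centralizer ({(x : G)} : Set G)).subgroupOf F).FiniteIndex := inferInstance
    intro h0
    apply h2.index_ne_zero
    have hle : (Subgroup.centralizer ({(x : G)} : Set G)).subgroupOf F ≤
        Subgroup.centralizer ({x} : Set F) := by
      intro z hz
      rw [Subgroup.mem_subgroupOf, Subgroup.mem_centralizer_singleton_iff] at hz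
      rw [Subgroup.mem_centralizer_singleton_iff]
      exact Subtype.ext hz
    have := Subgroup.index_dvd_of_le hle
    rw [h0] at this
    exact Nat.eq_zero_of_zero_dvd this)
  refine comm_case ((fun x : F => (x : G)) '' T) (hT.image (fun a _ b _ hab => Subtype.ext hab)) ?_
  rintro _ ⟨a, ha, rfl⟩ _ ⟨b, hb, rfl⟩
  exact congrArg Subtype.val (hcomm a ha b hb)

theorem fc_finite {G : Type} [Group G] (F : Subgroup G)
    (hF : ∀ x : G, x ∈ F ↔ (Subgroup.centralizer ({x} : Set G)).index ≠ 0)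
    (hfin : (F : Set G).Finite)
    (hchi : ∀ (k : ℕ) (c : G → Fin k), ∃ x y : G, x ≠ y ∧ c x = c y ∧ ∃ s : G, x⁻¹ * y = s * s) :
    HasSym G := by
  intro k c n
  haveI : Fintype F := hfin.fintype
  obtain ⟨S, hS⟩ := compactness (V := G) Rel k (by
    intro f
    let e : Fin k × F ≃ Fin (Fintype.card (Fin k × F)) := Fintype.equivFin _
    have hmem : ∀ x : G, (Quotient.out (QuotientGroup.mk x : G ⧸ F))⁻¹ * x ∈ F := by
      intro x
      rw [← QuotientGroup.eq]
      exact QuotientGroup.out_eq' _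
    obtain ⟨x, y, hne, hc, s, hs⟩ := hchi _ (fun x => e (f x, ⟨_, hmem x⟩))
    have h1 := e.injective hc
    simp only [Prod.mk.injEq, Subtype.mk.injEq] at h1
    obtain ⟨h1, h2⟩ := h1
    have hnF : x⁻¹ * y ∉ F := by
      intro h
      have h3 : (QuotientGroup.mk x : G ⧸ F) = QuotientGroup.mk y := QuotientGroup.eq.2 h
      rw [h3] at h2
      exact hne (mul_left_cancel h2)
    refine ⟨x, y, ⟨hne, x * s, ?_, ?_⟩, h1⟩
    · calc x * s * x⁻¹ * (x * s) = x * (s * s) := by group
        _ = y := by rw [← hs]; group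
    · by_contra h
      apply hnF
      have h4 : (x * s)⁻¹ * x ∈ F := (hF _).2 h
      have h5 : (x * s)⁻¹ * x = s⁻¹ := by group
      rw [h5] at h4
      have h6 : s ∈ F := by simpa using F.inv_mem h4
      rw [hs]
      exact F.mul_mem h6 h6)
  exact grid' t_NEU G k n c S hS

/-- the sufficient direction -/
theorem suff {G : Type} [Group G]
    (hchi : ∀ (k : ℕ) (c : G → Fin k), ∃ x y : G, x ≠ y ∧ c x = c y ∧ ∃ s : G, x⁻¹ * y = s * s) :
    HasSym G := by
  obtain ⟨F, hF⟩ := t_FC G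
  by_cases hfin : (F : Set G).Finite
  · exact fc_finite F hF hfin hchi
  · exact fc_infinite F (fun x hx => (hF x).1 hx) hfin

/-- the necessary direction -/
theorem nec {G : Type} [Group G] (h : HasSym G) (hfin : {x : G | x * x = 1}.Finite)
    (k : ℕ) (c : G → Fin k) : ∃ x y : G, x ≠ y ∧ c x = c y ∧ ∃ s : G, x⁻¹ * y = s * s := by
  obtain ⟨A, g, hA, hmono, hsym⟩ := h k c (hfin.toFinset.card + 1)
  by_contra hcon
  push Not at hcon
  have hfix : ∀ x ∈ A, g * x⁻¹ * g = x := by
    intro x hx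
    by_contra hne
    have hy : g * x⁻¹ * g ∈ A := by
      rw [← Finset.mem_coe, hsym]
      exact ⟨x, hx, rfl⟩
    apply hcon x (g * x⁻¹ * g) (Ne.symm hne) (hmono x hx _ hy) (x⁻¹ * g)
    group
  have hle : A.card ≤ hfin.toFinset.card := by
    apply Finset.card_le_card_of_injOn (fun x => x⁻¹ * g)
    · intro x hx
      have h1 := hfix x hx
      simp only [Set.Finite.coe_toFinset, Set.mem_ofPred_eq]
      calc x⁻¹ * g * (x⁻¹ * g) = x⁻¹ * (g * x⁻¹ * g) := by group
        _ = 1 := by rw [h1]; group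
    · intro x hx y hy hxy
      simp only [mul_left_inj, inv_inj] at hxy
      exact hxy
  omega

/-- large finite sets all of whose quotients are squares -/
theorem of_cliques {G : Type} [Group G]
    (h : ∀ k : ℕ, ∃ S : Finset G, k ≤ S.card ∧ ∀ x ∈ S, ∀ y ∈ S, ∃ s : G, x⁻¹ * y = s * s) :
    HasSym G := by
  apply suff
  intro k c
  obtain ⟨S, hS, hsq⟩ := h (k + 1)
  obtain ⟨x, hx, y, hy, hne, he⟩ := Finset.exists_ne_map_eq_of_card_lt_of_maps_to
    (s := S) (t := (Finset.univ : Finset (Fin k))) (f := c)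
    (by simpa using hS) (fun a _ => by simp)
  exact ⟨x, y, hne, he, hsq x hx y hy⟩

end Pool.Agent.R185.SymEq
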