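import Pool.Agent.R185.SymEq2
import Pool.Agent.H46R2.SY.CYC
import Pool.Agent.H46R2.SY.INV
import Pool.Agent.H46R2.SY.SUB
import Pool.Agent.H46R2.SY.NEU
import Pool.Agent.H46R2.SY.GRID
import Pool.Agent.H46R2.SY.FC
import Pool.Agent.H46R2.SY.FIN
import Pool.Agent.H46R2.SY.ODD
import Pool.Agent.H46R2.SY.MIN
import Pool.Agent.H46R2.SY.SET

set_option autoImplicit false
set_option linter.unusedVariables false

namespace Pool.Agent.R185.SymEq

open Pool.Agent.H46R2.SY

/-- what is known (starting file `NonExceptional`) about a group without the property -/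
theorem exceptional (G : Type) [Group G] [Infinite G] (hfail : ¬ HasSym G) :
    (∃ N : ℕ, 0 < N ∧ ∀ x : G, x ^ N = 1) ∧
    {x : G | x ^ 2 = 1}.Finite ∧
    (∀ K : Subgroup G, (K : Set G).Infinite →
      ∃ H : Subgroup G, H ≤ K ∧ (H : Set G).Infinite ∧
        ∃ t ∈ H, t ≠ 1 ∧ t ^ 2 = 1 ∧ (∀ x ∈ H, t * x = x * t) ∧
          ∀ L : Subgroup G, L ≤ H → (L : Set G).Infinite → t ∈ L) := by
  have hNEU : S_NEU := t_NEU
  have hGRID : S_GRID := t_GRID hNEU
  have hFC : S_FC := t_FC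
  have hODD : S_ODD := t_ODD hGRID hFC t_FIN
  have h1 : ∃ N : ℕ, 0 < N ∧ ∀ x : G, x ^ N = 1 := by
    by_contra hcon
    push Not at hcon
    exact hfail (t_CYC G hcon)
  have h2 : {x : G | x ^ 2 = 1}.Finite := by
    by_contra hcon
    exact hfail (t_INV G hcon)
  obtain ⟨N, hN, hexp⟩ := h1
  have h3 : ∀ S : Set G, S.Infinite → ∃ x ∈ S, ∃ y ∈ S, x ≠ y ∧ Even (orderOf (x * y⁻¹)) := by
    intro S hS
    by_contra hcon
    push Not at hcon
    refine hfail (t_SET hGRID hODD hFC N hN hexp h2 S hS ?_)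
    intro x hx y hy hxy
    exact Nat.not_even_iff_odd.1 (hcon x hx y hy hxy)
  refine ⟨⟨N, hN, hexp⟩, h2, ?_⟩
  apply t_MIN G h2
  intro K hK
  obtain ⟨x, hx, y, hy, hxy, m, hm⟩ := h3 K hK
  have hfo : IsOfFinOrder (x * y⁻¹) :=
    isOfFinOrder_iff_pow_eq_one.2 ⟨N, hN, hexp _⟩
  have hpos : 0 < orderOf (x * y⁻¹) := hfo.orderOf_pos
  refine ⟨(x * y⁻¹) ^ m, K.pow_mem (K.mul_mem hx (K.inv_mem hy)) _, ?_, ?_⟩
  · intro h
    have := orderOf_dvd_of_pow_eq_one h
    have := Nat.le_of_dvd (by omega) this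
    omega
  · rw [← pow_mul, mul_two, ← hm, pow_orderOf_eq_one]

/-- the reduction of the whole question -/
theorem reduction
    (h : ∀ (H : Type) [Group H] [Infinite H], (∃ N : ℕ, 0 < N ∧ ∀ x : H, x ^ N = 1) →
      {x : H | x * x = 1}.Finite →
      (∃ t : H, t ≠ 1 ∧ t * t = 1 ∧ (∀ x : H, t * x = x * t) ∧
        ∀ L : Subgroup H, (L : Set H).Infinite → t ∈ L) →
      ∀ (k : ℕ) (c : H → Fin k), ∃ x y : H, x ≠ y ∧ c x = c y ∧ ∃ s : H, x⁻¹ * y = s * s)
    (G : Type) [Group G] [Infinite G] : HasSym G := by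
  by_contra hfail
  obtain ⟨⟨N, hN, hexp⟩, h2, h3⟩ := exceptional G hfail
  obtain ⟨H, -, hH, t, ht, ht1, ht2, htc, htL⟩ := h3 ⊤ (by
    simpa using (Set.infinite_univ (α := G)))
  have : Infinite H := hH.to_subtype
  apply hfail
  apply t_SUB G H
  apply suff
  apply h H ⟨N, hN, fun x => Subtype.ext (by simpa using hexp x)⟩
  · have h4 : ((fun x : H => (x : G)) ⁻¹' {x : G | x ^ 2 = 1}).Finite :=
      h2.preimage (fun a _ b _ hab => Subtype.ext hab)
    refine h4.subset ?_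
    intro x hx
    have hx' : x * x = 1 := hx
    show (x : G) ^ 2 = 1
    rw [pow_two]
    exact congrArg Subtype.val hx'
  · refine ⟨⟨t, ht⟩, ?_, ?_, ?_, ?_⟩
    · intro h
      exact ht1 (congrArg Subtype.val h)
    · apply Subtype.ext
      show t * t = 1
      rw [← pow_two]
      exact ht2
    · intro x
      exact Subtype.ext (htc x x.2)
    · intro L hL
      have h5 : (L.map H.subtype : Set G).Infinite := by
        rw [Subgroup.coe_map]
        exact hL.image (fun a _ b _ hab => Subtype.ext hab)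
      have h6 := htL (L.map H.subtype) (by
        rintro _ ⟨z, -, rfl⟩
        exact z.2) h5
      obtain ⟨z, hz, hzt⟩ := h6
      have : z = ⟨t, ht⟩ := Subtype.ext hzt
      rw [← this]
      exact hz

end Pool.Agent.R185.SymEq
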