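import Pool.Agent.R185.SymEq3

set_option autoImplicit false
set_option linter.unusedVariables false
open scoped Classical

namespace Pool.Agent.R185.SymEq

open Pool.Agent.H46R2.SY

theorem index_pow {G : Type} [Group G] (b : G) (d : ℕ)
    (h : (Subgroup.centralizer ({b ^ d} : Set G)).index = 0) :
    (Subgroup.centralizer ({b} : Set G)).index = 0 := by
  have hle : Subgroup.centralizer ({b} : Set G) ≤ Subgroup.centralizer ({b ^ d} : Set G) := by
    intro z hz
    rw [Subgroup.mem_centralizer_singleton_iff] at hz ⊢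
    have : Commute b z := hz.symm
    exact ((this.pow_left d).eq).symm
  have := Subgroup.index_dvd_of_le hle
  rw [h] at this
  exact Nat.eq_zero_of_zero_dvd this

theorem index_inv {G : Type} [Group G] (b : G)
    (h : (Subgroup.centralizer ({b} : Set G)).index = 0) :
    (Subgroup.centralizer ({b⁻¹} : Set G)).index = 0 := by
  have hle : Subgroup.centralizer ({b⁻¹} : Set G) ≤ Subgroup.centralizer ({b} : Set G) := by
    intro z hz
    rw [Subgroup.mem_centralizer_singleton_iff] at hz ⊢
    have h1 : Commute b⁻¹ z := hz.symm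
    have h2 := h1.inv_left
    rw [inv_inv] at h2
    exact h2.eq.symm
  have := Subgroup.index_dvd_of_le hle
  rw [h] at this
  exact Nat.eq_zero_of_zero_dvd this

/-- `k` colours and an element `a` such that `a ^ 2, a ^ 4, …, a ^ (2 k)` all have infinitely many
conjugates -/
theorem few_colours {G : Type} [Group G] (k n : ℕ) (a : G)
    (h : ∀ j : ℕ, 1 ≤ j → j ≤ k → (Subgroup.centralizer ({a ^ (2 * j)} : Set G)).index = 0)
    (c : G → Fin k) : SymAt k c n := by
  have hne : ∀ i j : ℕ, i < j → j ≤ k → a ^ (2 * i) ≠ a ^ (2 * j) := by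
    intro i j hij hj he
    have h1 := h (j - i) (by omega) (by omega)
    have h2 : a ^ (2 * (j - i)) = 1 := by
      have h3 : a ^ (2 * i) * a ^ (2 * (j - i)) = a ^ (2 * i) * 1 := by
        rw [← pow_add, mul_one, he]
        congr 1
        omega
      exact mul_left_cancel h3
    rw [h2] at h1
    have h4 : Subgroup.centralizer ({1} : Set G) = ⊤ := by
      ext g
      simp [Subgroup.mem_centralizer_singleton_iff]
    rw [h4] at h1
    simp at h1
  have hdir : ∀ i j : ℕ, i < j → j ≤ k →
      (Subgroup.centralizer ({a ^ (j - i)} : Set G)).index = 0 := by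
    intro i j hij hj
    apply index_pow _ 2
    rw [← pow_mul]
    have := h (j - i) (by omega) (by omega)
    rwa [mul_comm] at this
  have key : ∀ i j : ℕ, i < j → j ≤ k →
      (a ^ (i + j) * (a ^ (2 * i))⁻¹ * a ^ (i + j) = a ^ (2 * j) ∧
        (Subgroup.centralizer ({(a ^ (i + j))⁻¹ * a ^ (2 * i)} : Set G)).index = 0) ∧
      (a ^ (i + j) * (a ^ (2 * j))⁻¹ * a ^ (i + j) = a ^ (2 * i) ∧
        (Subgroup.centralizer ({(a ^ (i + j))⁻¹ * a ^ (2 * j)} : Set G)).index = 0) := by
    intro i j hij hj
    have e1 : a ^ (i + j) = a ^ (2 * i) * a ^ (j - i) := by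
      rw [← pow_add]; congr 1; omega
    have e2 : a ^ (2 * j) = a ^ (2 * i) * a ^ (j - i) * a ^ (j - i) := by
      rw [← pow_add, ← pow_add]; congr 1; omega
    have e3 : a ^ (2 * i) * a ^ (j - i) = a ^ (j - i) * a ^ (2 * i) := by
      rw [← pow_add, ← pow_add, add_comm]
    refine ⟨⟨?_, ?_⟩, ?_, ?_⟩
    · rw [e2, e1]; group
    · have : (a ^ (i + j))⁻¹ * a ^ (2 * i) = (a ^ (j - i))⁻¹ := by rw [e1]; group
      rw [this]
      exact index_inv _ (hdir i j hij hj)
    · rw [e2, e1]
      calc a ^ (2 * i) * a ^ (j - i) * (a ^ (2 * i) * a ^ (j - i) * a ^ (j - i))⁻¹ *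
            (a ^ (2 * i) * a ^ (j - i))
          = a ^ (2 * i) * (a ^ (j - i))⁻¹ * (a ^ (2 * i))⁻¹ * (a ^ (2 * i) * a ^ (j - i)) := by group
        _ = a ^ (2 * i) := by group
    · have : (a ^ (i + j))⁻¹ * a ^ (2 * j) = a ^ (j - i) := by rw [e1, e2]; group
      rw [this]
      exact hdir i j hij hj
  apply t_GRID t_NEU G k n c ((Finset.range (k + 1)).image (fun i : ℕ => a ^ (2 * i)))
  · rw [Finset.card_image_of_injOn, Finset.card_range]
    · omega
    · intro i hi j hj he
      simp only [Finset.coe_range, Set.mem_Iio] at hi hj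
      rcases lt_trichotomy i j with hij | hij | hij
      · exact absurd he (hne i j hij (by omega))
      · exact hij
      · exact absurd he.symm (hne j i hij (by omega))
  · intro x hx y hy hxy
    rw [Finset.mem_image] at hx hy
    obtain ⟨i, hi, rfl⟩ := hx
    obtain ⟨j, hj, rfl⟩ := hy
    rw [Finset.mem_range] at hi hj
    rcases lt_trichotomy i j with hij | hij | hij
    · exact ⟨a ^ (i + j), (key i j hij (by omega)).1⟩
    · exact absurd (by rw [hij]) hxy
    · exact ⟨a ^ (j + i), (key j i hij (by omega)).2⟩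

/-- the sufficient direction for a fixed number of colours -/
theorem per_k_suff {G : Type} [Group G] (k : ℕ)
    (h : ∀ f : G → Fin k, ∃ x y s : G, x ≠ y ∧ f x = f y ∧ x⁻¹ * y = s * s ∧
      (Subgroup.centralizer ({s} : Set G)).index = 0)
    (c : G → Fin k) (n : ℕ) : SymAt k c n := by
  obtain ⟨S, hS⟩ := compactness (V := G) Rel k (by
    intro f
    obtain ⟨x, y, s, hne, hf, hs, hi⟩ := h f
    refine ⟨x, y, ⟨hne, x * s, ?_, ?_⟩, hf⟩
    · calc x * s * x⁻¹ * (x * s) = x * (s * s) := by group
        _ = y := by rw [← hs]; group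
    · have : (x * s)⁻¹ * x = s⁻¹ := by group
      rw [this]
      exact index_inv _ hi)
  exact grid' t_NEU G k n c S hS

/-- the necessary direction for a fixed number of colours -/
theorem per_k_nec {G : Type} [Group G] (k : ℕ)
    (h : ∀ (c : G → Fin k) (n : ℕ), SymAt k c n)
    (h1 : {x : G | (Subgroup.centralizer ({x} : Set G)).index ≠ 0}.Finite)
    (h2 : {x : G | x * x = 1}.Finite) (f : G → Fin k) :
    ∃ x y s : G, x ≠ y ∧ f x = f y ∧ x⁻¹ * y = s * s ∧
      (Subgroup.centralizer ({s} : Set G)).index = 0 := by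
  obtain ⟨A, g, hA, hmono, hsym⟩ := h f (h1.toFinset.card + h2.toFinset.card + 1)
  by_contra hcon
  push Not at hcon
  have hle : A.card ≤ (h1.toFinset ∪ h2.toFinset).card := by
    apply Finset.card_le_card_of_injOn (fun x => x⁻¹ * g)
    · intro x hx
      have hy : g * x⁻¹ * g ∈ A := by
        rw [← Finset.mem_coe, hsym]
        exact ⟨x, hx, rfl⟩
      rw [Finset.mem_coe, Finset.mem_union, Set.Finite.mem_toFinset, Set.Finite.mem_toFinset]
      by_cases hxy : x = g * x⁻¹ * g
      · right
        show x⁻¹ * g * (x⁻¹ * g) = 1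
        calc x⁻¹ * g * (x⁻¹ * g) = x⁻¹ * (g * x⁻¹ * g) := by group
          _ = 1 := by rw [← hxy]; group
      · left
        exact hcon x (g * x⁻¹ * g) (x⁻¹ * g) hxy (hmono x hx _ hy) (by group)
    · intro x hx y hy hxy
      simp only [mul_left_inj, inv_inj] at hxy
      exact hxy
  have := Finset.card_union_le h1.toFinset h2.toFinset
  omega

end Pool.Agent.R185.SymEq
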